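import Mathlib

/-! One-sided comparison of a moment-curve kernel with an arbitrary kernel. -/

set_option autoImplicit false

namespace Pool.Agent.Lib.MP_9087e4_co.Sh

open Finset Module

section Lin

variable {K X Y : Type} [Field K] [AddCommGroup X] [Module K X] [AddCommGroup Y] [Module K Y]

theorem fr_le [FiniteDimensional K Y] (A : Submodule K X) (B : Submodule K Y) (g : X →ₗ[K] Y)
    (h1 : ∀ x ∈ A, g x ∈ B) (h2 : ∀ x ∈ A, g x = 0 → x = 0) : finrank K A ≤ finrank K B :=
  LinearMap.finrank_le_finrank_of_injective (f := g.restrict h1)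
    ((injective_iff_map_eq_zero _).2 fun x hx => Subtype.ext (h2 x x.2 (congrArg Subtype.val hx)))

theorem fr_ker [FiniteDimensional K X] (A : Submodule K X) (f : X →ₗ[K] Y) :
    finrank K (A.map f) + finrank K (A ⊓ LinearMap.ker f : Submodule K X) = finrank K A := by
  have h := LinearMap.finrank_range_add_finrank_ker (f.domRestrict A)
  rwa [LinearMap.range_domRestrict, LinearMap.ker_domRestrict,
    ← Submodule.finrank_map_subtype_eq, Submodule.map_comap_subtype] at h

theorem fr_pi {ι : Type} [Fintype ι] [FiniteDimensional K Y] (L : ι → Submodule K Y) :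
    finrank K (Submodule.pi Set.univ L) = ∑ i, finrank K (L i) := by
  rw [← Module.finrank_pi_fintype K]
  exact LinearEquiv.finrank_eq
    { toFun := fun x i => ⟨x.1 i, x.2 i trivial⟩
      map_add' := fun _ _ => rfl
      map_smul' := fun _ _ => rfl
      invFun := fun x => ⟨fun i => x i, fun i _ => (x i).2⟩
      left_inv := fun _ => rfl
      right_inv := fun _ => rfl }

end Lin

variable {K V : Type} [Field K] [Fintype V]

/-- matrices with row `i` in `L i`, killed on the left by the vectors `κ e`, `e < a` -/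
def St (L : V → Submodule K (V → K)) (κ : ℕ → V → K) (a : ℕ) : Submodule K (V → V → K) where
  carrier := {M | (∀ i, M i ∈ L i) ∧ ∀ e < a, ∑ i, κ e i • M i = 0}
  add_mem' := fun {M N} hM hN => ⟨fun i => add_mem (hM.1 i) (hN.1 i), fun e he => by
    simp only [Pi.add_apply, smul_add, sum_add_distrib, hM.2 e he, hN.2 e he, add_zero]⟩
  zero_mem' := ⟨fun i => zero_mem _, fun e _ => by simp⟩
  smul_mem' := fun c M hM => ⟨fun i => Submodule.smul_mem _ c (hM.1 i), fun e he => by
    simp only [Pi.smul_apply, smul_comm _ c, ← smul_sum, hM.2 e he, smul_zero]⟩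

/-- the power vectors -/
def pw (t : V → K) : ℕ → V → K := fun e i => t i ^ e

/-- `M ↦ ∑ i, M i / (t i - c)` -/
def ev (t : V → K) (c : K) : (V → V → K) →ₗ[K] (V → K) := ∑ i, (t i - c)⁻¹ • LinearMap.proj i

theorem ev_apply (t : V → K) (c : K) (M : V → V → K) : ev t c M = ∑ i, (t i - c)⁻¹ • M i := by
  simp [ev]

/-- the values at `c` -/
def Um (L : V → Submodule K (V → K)) (t : V → K) (c : K) (a : ℕ) : Submodule K (V → K) :=
  (St L (pw t) a).map (ev t c)

/-- rescaling the rows -/
def sc (u : V → K) : (V → V → K) →ₗ[K] (V → V → K) :=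
  LinearMap.pi fun i => u i • LinearMap.proj i

omit [Fintype V] in
theorem sc_apply (u : V → K) (M : V → V → K) (i : V) : sc u M i = u i • M i := rfl

variable {L L' : V → Submodule K (V → K)} {κ : ℕ → V → K} {t : V → K} {c : K}

theorem St_mono (h : ∀ i, L i ≤ L' i) {a a' : ℕ} (ha : a' ≤ a) : St L κ a ≤ St L' κ a' :=
  fun _ hM => ⟨fun i => h i (hM.1 i), fun e he => hM.2 e (he.trans_le ha)⟩

theorem sc_mem {a : ℕ} {M : V → V → K} (hM : M ∈ St L (pw t) (a + 1)) (c : K) :
    sc (fun i => t i - c) M ∈ St L (pw t) a := by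
  refine ⟨fun i => Submodule.smul_mem _ _ (hM.1 i), fun e he => ?_⟩
  have h1 := hM.2 (e + 1) (by omega)
  have h2 := hM.2 e (by omega)
  have : ∑ i, pw t e i • sc (fun i => t i - c) M i =
      ∑ i, pw t (e + 1) i • M i - c • ∑ i, pw t e i • M i := by
    rw [smul_sum, ← sum_sub_distrib]
    refine sum_congr rfl fun i _ => ?_
    rw [sc_apply, smul_smul, smul_smul, ← sub_smul]
    congr 1
    simp only [pw]; ring
  rw [this, h1, h2, smul_zero, sub_zero]

theorem rn (hc : ∀ i, t i ≠ c) (a : ℕ) :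
    finrank K (Um L t c a) + finrank K (St L (pw t) (a + 1)) ≤ finrank K (St L (pw t) a) := by
  rw [← fr_ker (St L (pw t) a) (ev t c)]
  refine Nat.add_le_add_left (fr_le _ (_ ⊓ _) (sc fun i => t i - c)
    (fun M hM => Submodule.mem_inf.2 ⟨sc_mem hM c, ?_⟩) fun M _ h => funext fun i => ?_) _
  · have h0 := hM.2 0 (by omega)
    show ev t c _ = 0
    rw [ev_apply, ← h0]
    refine sum_congr rfl fun i _ => ?_
    rw [sc_apply, smul_smul, inv_mul_cancel₀ (sub_ne_zero.2 (hc i)), pw, pow_zero]
  · exact (smul_eq_zero.1 (congrFun h i)).resolve_left (sub_ne_zero.2 (hc i))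

theorem chain (hc : ∀ i, t i ≠ c) (a m u : ℕ) (hu : ∀ j < m, u ≤ finrank K (Um L t c (a + j))) :
    m * u + finrank K (St L (pw t) (a + m)) ≤ finrank K (St L (pw t) a) := by
  induction m with
  | zero => simp
  | succ m ih =>
    have h1 := ih fun j hj => hu j (by omega)
    have h2 := rn (L := L) hc (a + m)
    have h3 := hu m (by omega)
    rw [← add_assoc a, add_mul]
    omega

theorem count (L : V → Submodule K (V → K)) (W : Submodule K (V → K)) (κ : ℕ → V → K) (r : ℕ) :
    ∑ i, finrank K (L i ⊓ W : Submodule K (V → K)) ≤ finrank K (St L κ r) + r * finrank K W := by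
  let f : (V → V → K) →ₗ[K] (Fin r → V → K) := LinearMap.pi fun e => ∑ i, κ e i • LinearMap.proj i
  have hf : ∀ M e, f M e = ∑ i, κ e i • M i := fun M e => by simp [f]
  rw [← fr_pi, ← fr_ker _ f, add_comm]
  refine add_le_add (Submodule.finrank_mono fun M hM => ⟨fun i => (hM.1 i trivial).1, fun e he => ?_⟩) ?_
  · rw [← hf M ⟨e, he⟩, LinearMap.mem_ker.1 hM.2]; rfl
  · have : finrank K (Submodule.pi Set.univ fun _ : Fin r => W) = r * finrank K W := by
      rw [fr_pi]; simp
    rw [← this]
    refine Submodule.finrank_mono ?_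
    rintro _ ⟨M, hM, rfl⟩ e _
    rw [hf]
    exact sum_mem fun i _ => Submodule.smul_mem _ _ (hM i trivial).2

/-- the space of `k`-th rows -/
def res (A : Submodule K (V → V → K)) (k : V) : Submodule K (V → K) := A.map (LinearMap.proj k)

theorem rows (hc : ∀ i, t i ≠ c) (a : ℕ) :
    a * finrank K (Um L t c a) + finrank K (St L (pw t) a) ≤
      ∑ k, finrank K (res (St L (pw t) a) k) := by
  have h0 : St L (pw t) a ≤ St (res (St L (pw t) a)) (pw t) a :=
    fun M hM => ⟨fun i => ⟨M, hM, rfl⟩, hM.2⟩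
  have h1 := chain (L := res (St L (pw t) a)) hc 0 a (finrank K (Um L t c a)) fun j hj =>
    Submodule.finrank_mono (Submodule.map_mono (h0.trans (St_mono (fun _ => le_rfl) (by omega))))
  rw [zero_add] at h1
  have h2 := Submodule.finrank_mono h0
  have h3 : finrank K (St (res (St L (pw t) a)) (pw t) 0) ≤ _ :=
    Submodule.finrank_mono (t := Submodule.pi Set.univ (res (St L (pw t) a))) fun M hM i _ => hM.1 i
  rw [fr_pi] at h3
  omega

theorem step [DecidableEq V] (ht : Function.Injective t) (k : V) (σ : K ≃+* K) (h1 : ∀ i ≠ k, σ (t i) = t i)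
    (h2 : σ (t k) = c) (μ : (V → K) →ₗ[K] (V → K)) (L0 : V → Submodule K (V → K))
    (m1 : ∀ i, ∀ x ∈ L i, μ x ∈ L0 i) (m2 : ∀ x ∈ L k, μ x = 0 → x = 0)
    (m3 : ∀ i, ∀ x ∈ L0 i, σ ∘ x ∈ L0 i) (m4 : ∀ i, L0 i ≤ L' i) (a : ℕ) :
    finrank K (res (St L (pw t) (a + 1)) k) ≤
      finrank K (L' k ⊓ Um L' t c a : Submodule K (V → K)) := by
  have hs : ∀ (u : K) (x : V → K), σ ∘ (u • x) = σ u • (σ ∘ x) := fun u x => by
    ext j; simp
  have hsum : ∀ f : V → V → K, σ ∘ (∑ i, f i) = ∑ i, σ ∘ f i := fun f => by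
    ext j; simp
  have key : ∀ x ∈ res (St L (pw t) (a + 1)) k, σ ∘ μ x ∈ L' k ⊓ Um L' t c a := by
    rintro _ ⟨M, hM, rfl⟩
    refine ⟨m4 k (m3 k _ (m1 k _ (hM.1 k))), ?_⟩
    have hN : (fun i => μ (M i)) ∈ St L0 (pw t) (a + 1) := ⟨fun i => m1 i _ (hM.1 i), fun e he => by
      have := congrArg μ (hM.2 e he)
      simpa only [map_sum, map_smul, map_zero] using this⟩
    have hN' := sc_mem hN (t k)
    refine ⟨fun i => -(σ ∘ sc (fun i => t i - t k) (fun i => μ (M i)) i),
      ⟨fun i => neg_mem (m4 i (m3 i _ (hN'.1 i))), fun e he => ?_⟩, ?_⟩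
    · have := congrArg (σ ∘ ·) (hN'.2 e he)
      simp only [hsum, hs] at this
      have h0 : σ ∘ (0 : V → K) = 0 := by ext; simp
      rw [h0] at this
      simp only [smul_neg, sum_neg_distrib, neg_eq_zero]
      rw [← this]
      refine sum_congr rfl fun i _ => ?_
      by_cases hi : i = k
      · subst hi
        simp [sc_apply, h0]
      · simp [pw, h1 i hi]
    · have h0 := hN.2 0 (by omega)
      simp only [pw, pow_zero, one_smul] at h0
      rw [← add_sum_erase _ _ (mem_univ k), add_eq_zero_iff_eq_neg] at h0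
      have h3 : σ ∘ μ (M k) = -∑ i ∈ univ.erase k, σ ∘ μ (M i) := by
        rw [h0]; ext j; simp
      show _ = σ ∘ μ (M k)
      rw [ev_apply, h3, ← add_sum_erase _ _ (mem_univ k), ← sum_neg_distrib]
      have h4 : σ ∘ sc (fun i => t i - t k) (fun i => μ (M i)) k = 0 := by
        ext j; simp [sc_apply]
      rw [h4, neg_zero, smul_zero, zero_add]
      refine sum_congr rfl fun i hi => ?_
      have hi' := ne_of_mem_erase hi
      have h5 : t i - c ≠ 0 := by
        rw [← h1 i hi', ← h2, ← map_sub]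
        exact (map_ne_zero σ).2 (sub_ne_zero.2 fun h => hi' (ht h))
      rw [sc_apply, hs, map_sub, h1 i hi', h2, smul_neg, smul_smul, inv_mul_cancel₀ h5, one_smul]
  let j : res (St L (pw t) (a + 1)) k →+ (L' k ⊓ Um L' t c a : Submodule K (V → K)) :=
    { toFun := fun x => ⟨σ ∘ μ x, key x x.2⟩
      map_zero' := by ext; simp
      map_add' := fun x y => by ext; simp }
  have := rank_le_of_injective_injective (R := K) (R' := K) σ.symm j (fun r => (map_eq_zero _).1)
    ((injective_iff_map_eq_zero _).2 fun x hx => by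
      obtain ⟨_, M, hM, rfl⟩ := x
      refine Subtype.ext (m2 _ (hM.1 k) (funext fun i => ?_))
      exact (map_eq_zero σ).1 (congrFun (congrArg Subtype.val hx) i))
    (fun r m => by ext; simp [j])
  rw [← finrank_eq_rank, ← finrank_eq_rank] at this
  exact_mod_cast this

theorem oneside (hc : ∀ i, t i ≠ c) (F : ℕ → V → Submodule K (V → K)) (J r w : ℕ)
    (hF : ∀ j j', j ≤ j' → j' ≤ J → ∀ i, F j i ≤ F j' i)
    (hs : ∀ j < J, ∀ a k, finrank K (res (St (F j) (pw t) (a + 1)) k) ≤
      finrank K (F (j + 1) k ⊓ Um (F (j + 1)) t c a : Submodule K (V → K)))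
    (hw : finrank K (Um (F J) t c r) ≤ w) (κ : ℕ → V → K) :
    J * finrank K (St (F 0) (pw t) (r + J)) ≤ J * finrank K (St (F J) κ r) + r * w := by
  obtain rfl | hJ := Nat.eq_zero_or_pos J
  · simp
  let u : ℕ → ℕ := fun j => finrank K (Um (F j) t c (r + J - j))
  obtain ⟨j, hj, h⟩ : ∃ j < J, J * u (j + 1) ≤ J * u j + w := by
    by_contra hn
    push Not at hn
    have : ∀ j ≤ J, j * (w + 1) ≤ J * u j := fun j => by
      induction j with
      | zero => simp
      | succ j ih => intro hj; have := ih (by omega); have := hn j hj; rw [add_mul]; omega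
    have h1 := Nat.le_of_mul_le_mul_left (this J le_rfl) hJ
    have h2 : u J ≤ w := by
      show finrank K (Um (F J) t c (r + J - J)) ≤ w
      rwa [Nat.add_sub_cancel]
    omega
  obtain ⟨a, ha⟩ : ∃ a, r + J - j = a + 1 := ⟨r + J - j - 1, by omega⟩
  have ha' : r + J - (j + 1) = a := by omega
  have h1 := rows (L := F j) hc (a + 1)
  have h2 := count (F (j + 1)) (Um (F (j + 1)) t c a) κ r
  have h3 := sum_le_sum fun k (_ : k ∈ univ) => hs j hj a k
  have h4 : finrank K (St (F 0) (pw t) (r + J)) ≤ finrank K (St (F j) (pw t) (a + 1)) :=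
    Submodule.finrank_mono (St_mono (hF 0 j (by omega) hj.le) (by omega))
  have h5 : finrank K (St (F (j + 1)) κ r) ≤ finrank K (St (F J) κ r) :=
    Submodule.finrank_mono (St_mono (hF _ _ hj le_rfl) le_rfl)
  change J * finrank K (Um (F (j + 1)) t c (r + J - (j + 1))) ≤
    J * finrank K (Um (F j) t c (r + J - j)) + w at h
  rw [ha, ha'] at h
  have h6 : r * finrank K (Um (F j) t c (a + 1)) ≤ (a + 1) * finrank K (Um (F j) t c (a + 1)) :=
    Nat.mul_le_mul_right _ (by omega)
  have h7 : finrank K (St (F 0) (pw t) (r + J)) + r * finrank K (Um (F j) t c (a + 1)) ≤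
      finrank K (St (F J) κ r) + r * finrank K (Um (F (j + 1)) t c a) := by omega
  have h8 := Nat.mul_le_mul_left J h7
  have h9 := Nat.mul_le_mul_left r h
  nlinarith

end Pool.Agent.Lib.MP_9087e4_co.Sh
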