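import Pool.Agent.Lib.MP_9087e4_co.Sh.Core

set_option autoImplicit false

namespace Pool.Agent.Lib.MP_9087e4_co.Sh

open Finset Module

variable {K V : Type} [Field K] [Fintype V]

/-- vectors supported on the `π`-neighbours of `i`, orthogonal to `κ e`, `e < b` -/
def Rw (π : V → V → Prop) (κ : ℕ → V → K) (b : ℕ) (i : V) : Submodule K (V → K) where
  carrier := {x | (∀ j, ¬ π i j → x j = 0) ∧ ∀ e < b, ∑ j, κ e j * x j = 0}
  add_mem' := fun {x y} hx hy => ⟨fun j h => by simp [hx.1 j h, hy.1 j h], fun e he => by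
    simp only [Pi.add_apply, mul_add, sum_add_distrib, hx.2 e he, hy.2 e he, add_zero]⟩
  zero_mem' := ⟨fun _ _ => rfl, fun e _ => by simp⟩
  smul_mem' := fun c x hx => ⟨fun j h => by simp [hx.1 j h], fun e he => by
    simp only [Pi.smul_apply, smul_eq_mul, mul_left_comm _ c, ← mul_sum, hx.2 e he, mul_zero]⟩

/-- skew matrices supported on `π` and killed by `κ e`, `e < a` -/
def Sk (π : V → V → Prop) (κ : ℕ → V → K) (a : ℕ) : Submodule K (V → V → K) where
  carrier := {M | (∀ i j, M j i = -M i j) ∧ ∀ i, M i ∈ Rw π κ a i}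
  add_mem' := fun {M N} hM hN => ⟨fun i j => by
    simp only [Pi.add_apply, hM.1 i j, hN.1 i j, neg_add], fun i => add_mem (hM.2 i) (hN.2 i)⟩
  zero_mem' := ⟨fun _ _ => by simp, fun _ => zero_mem _⟩
  smul_mem' := fun c M hM => ⟨fun i j => by simp only [Pi.smul_apply, hM.1 i j, smul_neg],
    fun i => Submodule.smul_mem _ c (hM.2 i)⟩

end Pool.Agent.Lib.MP_9087e4_co.Sh
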