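import Pool.Agent.Lib.MP_9087e4_co.Sh.Log

/-! The comparison with an error term measured by the codimension `n - a`. -/

set_option autoImplicit false

namespace Pool.Agent.Lib.MP_9087e4_co.Sh

open Finset Module

variable {K V : Type} [Field K] [Fintype V] {t : V → K} {c : K} {L : V → Submodule K (V → K)}

theorem rn' (hc : ∀ i, t i ≠ c) (a : ℕ) :
    finrank K (St L (pw t) a) ≤ finrank K (Um L t c a) + finrank K (St L (pw t) (a + 1)) := by
  rw [← fr_ker (St L (pw t) a) (ev t c)]
  refine Nat.add_le_add_left (fr_le (St L (pw t) a ⊓ LinearMap.ker (ev t c)) (St L (pw t) (a + 1)) (sc fun i => (t i - c)⁻¹)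
    (fun M hM => ⟨fun i => Submodule.smul_mem _ _ (hM.1.1 i), fun e => ?_⟩)
    fun M _ h => funext fun i => ?_) _
  · induction e with
    | zero =>
      intro _
      have h0 : ev t c M = 0 := hM.2
      rw [← h0, ev_apply]
      exact sum_congr rfl fun i _ => by rw [sc_apply, pw, pow_zero, one_smul]
    | succ e ih =>
      intro he
      have h1 := ih (by omega)
      have h2 := hM.1.2 e (by omega)
      have : ∑ i, pw t (e + 1) i • sc (fun i => (t i - c)⁻¹) M i =
          ∑ i, pw t e i • M i + c • ∑ i, pw t e i • sc (fun i => (t i - c)⁻¹) M i := by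
        rw [smul_sum, ← sum_add_distrib]
        refine sum_congr rfl fun i _ => ?_
        rw [sc_apply, smul_smul, smul_smul, smul_smul, ← add_smul]
        congr 1
        have := sub_ne_zero.2 (hc i)
        simp only [pw]
        field_simp
        ring
      rw [this, h1, h2, smul_zero, add_zero]
  · exact (smul_eq_zero.1 (congrFun h i)).resolve_left (inv_ne_zero (sub_ne_zero.2 (hc i)))

theorem um_le {X : Submodule K (V → K)} (hX : ∀ i, L i ≤ X) (a : ℕ) : Um L t c a ≤ X := by
  rintro _ ⟨M, hM, rfl⟩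
  rw [ev_apply]
  exact sum_mem fun i _ => Submodule.smul_mem _ _ (hX i (hM.1 i))

theorem comp_mem {A : V → Submodule K (V → K)} {κ : ℕ → V → K} (μ : (V → K) →ₗ[K] (V → K))
    (m1 : ∀ i, ∀ x ∈ L i, μ x ∈ A i) {a : ℕ} {M : V → V → K} (hM : M ∈ St L κ a) :
    (fun i => μ (M i)) ∈ St A κ a := ⟨fun i => m1 i _ (hM.1 i), fun e he => by
  have := congrArg μ (hM.2 e he)
  simpa only [map_sum, map_smul, map_zero] using this⟩

theorem rw_top {π : V → V → Prop} {κ : ℕ → V → K} {b : ℕ} (i k : V) :
    Rw π κ b i ≤ Rw (fun _ _ => True) κ b k := fun _ hx => ⟨fun _ h => absurd trivial h, hx.2⟩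

variable [DecidableEq V]

/-- the family with the `k`-th member removed -/
def zr (A : V → Submodule K (V → K)) (k i : V) : Submodule K (V → K) := if i = k then ⊥ else A i

theorem zr_mem {A : V → Submodule K (V → K)} {κ : ℕ → V → K} {k : V} {a : ℕ} {M : V → V → K} :
    M ∈ St (zr A k) κ a ↔ M ∈ St A κ a ∧ M k = 0 := by
  refine ⟨fun h => ⟨⟨fun i => ?_, h.2⟩, by simpa [zr] using h.1 k⟩, fun h => ⟨fun i => ?_, h.1.2⟩⟩
  · have := h.1 i
    unfold zr at this
    split_ifs at this
    · rw [(Submodule.mem_bot K).1 this]; exact zero_mem _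
    · exact this
  · unfold zr
    split_ifs with hi
    · rw [hi]; exact h.2
    · exact h.1.1 i

theorem zr_rank (A : V → Submodule K (V → K)) (κ : ℕ → V → K) (k : V) (a : ℕ) :
    finrank K (res (St A κ a) k) + finrank K (St (zr A k) κ a) = finrank K (St A κ a) := by
  rw [← fr_ker (St A κ a) (LinearMap.proj k)]
  have : St (zr A k) κ a = St A κ a ⊓ LinearMap.ker (LinearMap.proj k) :=
    Submodule.ext fun _ => zr_mem
  rw [this]
  rfl

theorem step2 (ht : Function.Injective t) (k : V) (σ : K ≃+* K) (h1 : ∀ i ≠ k, σ (t i) = t i)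
    (h2 : σ (t k) = c) (m3 : ∀ i, ∀ x ∈ L i, σ ∘ x ∈ L i) (a : ℕ) :
    finrank K (res (St L (pw t) (a + 1)) k) ≤
      finrank K (L k ⊓ Um (zr L k) t c a : Submodule K (V → K)) := by
  have hs : ∀ (u : K) (x : V → K), σ ∘ (u • x) = σ u • (σ ∘ x) := fun u x => by
    ext j; simp
  have hsum : ∀ f : V → V → K, σ ∘ (∑ i, f i) = ∑ i, σ ∘ f i := fun f => by
    ext j; simp
  have key : ∀ x ∈ res (St L (pw t) (a + 1)) k, σ ∘ x ∈ L k ⊓ Um (zr L k) t c a := by
    rintro _ ⟨M, hM, rfl⟩
    refine ⟨m3 k _ (hM.1 k), ?_⟩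
    have hN' := sc_mem hM (t k)
    have h4 : σ ∘ sc (fun i => t i - t k) M k = 0 := by
      ext j; simp [sc_apply]
    refine ⟨fun i => -(σ ∘ sc (fun i => t i - t k) M i), zr_mem.2
      ⟨⟨fun i => neg_mem (m3 i _ (hN'.1 i)), fun e he => ?_⟩, by rw [h4, neg_zero]⟩, ?_⟩
    · have := congrArg (σ ∘ ·) (hN'.2 e he)
      simp only [hsum, hs] at this
      have h0 : σ ∘ (0 : V → K) = 0 := by ext; simp
      rw [h0] at this
      simp only [smul_neg, sum_neg_distrib, neg_eq_zero]
      rw [← this]
      refine sum_congr rfl fun i _ => ?_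
      by_cases hi : i = k
      · subst hi
        simp [sc_apply, h0]
      · simp [pw, h1 i hi]
    · have h0 := hM.2 0 (by omega)
      simp only [pw, pow_zero, one_smul] at h0
      rw [← add_sum_erase _ _ (mem_univ k), add_eq_zero_iff_eq_neg] at h0
      have h3 : σ ∘ M k = -∑ i ∈ univ.erase k, σ ∘ M i := by
        rw [h0]; ext j; simp
      show _ = σ ∘ M k
      rw [ev_apply, h3, ← add_sum_erase _ _ (mem_univ k), ← sum_neg_distrib]
      rw [h4, neg_zero, smul_zero, zero_add]
      refine sum_congr rfl fun i hi => ?_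
      have hi' := ne_of_mem_erase hi
      have h5 : t i - c ≠ 0 := by
        rw [← h1 i hi', ← h2, ← map_sub]
        exact (map_ne_zero σ).2 (sub_ne_zero.2 fun h => hi' (ht h))
      rw [sc_apply, hs, map_sub, h1 i hi', h2, smul_neg, smul_smul, inv_mul_cancel₀ h5, one_smul]
  let j : res (St L (pw t) (a + 1)) k →+ (L k ⊓ Um (zr L k) t c a : Submodule K (V → K)) :=
    { toFun := fun x => ⟨σ ∘ x, key x x.2⟩
      map_zero' := by ext; simp
      map_add' := fun x y => by ext; simp }
  have := rank_le_of_injective_injective (R := K) (R' := K) σ.symm j (fun r => (map_eq_zero _).1)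
    ((injective_iff_map_eq_zero _).2 fun x hx => Subtype.ext (funext fun i =>
      (map_eq_zero σ).1 (congrFun (congrArg Subtype.val hx) i)))
    (fun r m => by ext; simp [j])
  rw [← finrank_eq_rank, ← finrank_eq_rank] at this
  exact_mod_cast this

theorem dual_row (hc : ∀ i, t i ≠ c) (ht : Function.Injective t) (k : V) (σ : K ≃+* K)
    (h1 : ∀ i ≠ k, σ (t i) = t i) (h2 : σ (t k) = c) (A : V → Submodule K (V → K))
    (m3 : ∀ i, ∀ x ∈ A i, σ ∘ x ∈ A i) (μ : (V → K) →ₗ[K] (V → K)) (X : Submodule K (V → K))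
    (m1 : ∀ i, ∀ x ∈ L i, μ x ∈ A i) (hX : ∀ i, L i ≤ X) (m2 : ∀ x ∈ X, μ x = 0 → x = 0)
    (m4 : ∀ x ∈ X, μ x ∈ A k → x ∈ L k) (a : ℕ) :
    finrank K (res (St L (pw t) a) k) + finrank K (Um L t c (a + 1)) +
        finrank K (St A (pw t) (a + 1)) ≤
      finrank K (L k ⊓ Um L t c (a + 1) : Submodule K (V → K)) + finrank K (St A (pw t) a) := by
  have e1 : (Um L t c (a + 1)).map μ ≤ Um (zr A k) t c a := by
    rintro _ ⟨_, ⟨M, hM, rfl⟩, rfl⟩
    have hN := comp_mem μ m1 hM
    have h0 := hN.2 0 (by omega)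
    simp only [pw, pow_zero, one_smul] at h0
    have h3 : c - t k ≠ 0 := sub_ne_zero.2 (hc k).symm
    have h4 : ev t c (sc (fun i => t i - t k) fun i => μ (M i)) = (c - t k) • μ (ev t c M) := by
      rw [ev_apply, ev_apply, map_sum, smul_sum, ← zero_add (∑ i, (c - t k) • _), ← h0,
        ← sum_add_distrib]
      refine sum_congr rfl fun i _ => ?_
      have := sub_ne_zero.2 (hc i)
      rw [sc_apply, map_smul, smul_smul, smul_smul]
      nth_rewrite 2 [← one_smul K (μ (M i))]
      rw [← add_smul]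
      congr 1
      field_simp
      ring
    rw [← Submodule.smul_mem_iff _ h3, ← h4]
    exact ⟨_, zr_mem.2 ⟨sc_mem hN (t k), by simp [sc_apply]⟩, rfl⟩
  have e2 := fr_le (Um L t c (a + 1)) ((Um L t c (a + 1)).map μ) μ (fun x hx => ⟨x, hx, rfl⟩)
    fun x hx => m2 x (um_le hX _ hx)
  have e3 := Submodule.finrank_sup_add_finrank_inf_eq (A k ⊓ Um (zr A k) t c a)
    ((Um L t c (a + 1)).map μ)
  have e4 := Submodule.finrank_mono (sup_le (inf_le_right (a := A k)) e1)
  have e5 : finrank K (A k ⊓ Um (zr A k) t c a ⊓ (Um L t c (a + 1)).map μ : Submodule K (V → K)) ≤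
      finrank K (L k ⊓ Um L t c (a + 1) : Submodule K (V → K)) := by
    refine le_trans (Submodule.finrank_mono ?_) (Submodule.finrank_map_le μ _)
    rintro _ ⟨h3, x, hx, rfl⟩
    exact ⟨x, ⟨m4 x (um_le hX _ hx) h3.1, hx⟩, rfl⟩
  have e6 := step2 (c := c) ht k σ h1 h2 m3 a
  have e7 := rn (L := zr A k) hc a
  have e8 := zr_rank A (pw t) k a
  have e9 := zr_rank A (pw t) k (a + 1)
  have e10 := fr_le (res (St L (pw t) a) k) (res (St A (pw t) a) k) μ
    (by rintro _ ⟨M, hM, rfl⟩; exact ⟨_, comp_mem μ m1 hM, rfl⟩)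
    (by rintro _ ⟨M, hM, rfl⟩; exact m2 _ (hX k (hM.1 k)))
  omega

omit [DecidableEq V] in
theorem window (hc : ∀ i, t i ≠ c) (S : V → ℕ → ℕ) (κ : ℕ → V → K) (r m g p w : ℕ)
    (hrow : ∀ k a, finrank K (res (St L (pw t) a) k) + finrank K (Um L t c (a + 1)) + S k (a + 1) ≤
      finrank K (L k ⊓ Um L t c (a + 1) : Submodule K (V → K)) + S k a)
    (hS : ∀ k a, finrank K (St L (pw t) a) ≤ S k a)
    (hT : finrank K (St L κ r) < finrank K (St L (pw t) (p + w))) (hg : r + g ≤ p + 1)
    (hm : Fintype.card V ≤ p + 1 + m) :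
    w * (g * finrank K (Um L t c (p + w)) + 1) + Fintype.card V * finrank K (St L (pw t) p) ≤
      ∑ k, S k p + m * finrank K (Um L t c p) := by
  have key : ∀ i, i ≤ w → i * (g * finrank K (Um L t c (p + w)) + 1) +
      Fintype.card V * finrank K (St L (pw t) p) + ∑ k, S k (p + i) +
        m * finrank K (Um L t c (p + i)) ≤ ∑ k, S k p + m * finrank K (Um L t c p) +
          Fintype.card V * finrank K (St L (pw t) (p + i)) := by
    intro i
    induction i with
    | zero => intro _; simp only [Nat.add_zero]; omega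
    | succ i ih =>
      intro hi
      have a0 := ih (by omega)
      have a1 := sum_le_sum fun k (_ : k ∈ univ) => hrow k (p + i)
      simp only [sum_add_distrib, sum_const, card_univ, smul_eq_mul] at a1
      have a2 := rows (L := L) hc (p + i)
      have a3 := count L (Um L t c (p + i + 1)) κ r
      have a4 := rn (L := L) hc (p + i)
      have a5 := rn' (L := L) hc (p + i)
      have a6 : finrank K (St L (pw t) (p + w)) ≤ finrank K (St L (pw t) (p + i + 1)) :=
        Submodule.finrank_mono (St_mono (fun _ => le_rfl) (by omega))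
      have a7 : finrank K (Um L t c (p + w)) ≤ finrank K (Um L t c (p + i + 1)) :=
        Submodule.finrank_mono (Submodule.map_mono (St_mono (fun _ => le_rfl) (by omega)))
      have a8 : finrank K (Um L t c (p + i + 1)) ≤ finrank K (Um L t c (p + i)) :=
        Submodule.finrank_mono (Submodule.map_mono (St_mono (fun _ => le_rfl) (by omega)))
      rw [← add_assoc p]
      obtain ⟨δ, hδ⟩ := Nat.exists_eq_add_of_le a8
      have a9 : finrank K (St L (pw t) (p + i)) = finrank K (Um L t c (p + i + 1)) + δ +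
          finrank K (St L (pw t) (p + i + 1)) := by omega
      rw [a9, hδ] at a0 a2
      have b1 : Fintype.card V * δ ≤ (p + i + 1 + m) * δ := Nat.mul_le_mul_right _ (by omega)
      have b2 : (r + g) * finrank K (Um L t c (p + i + 1)) ≤
          (p + i + 1) * finrank K (Um L t c (p + i + 1)) := Nat.mul_le_mul_right _ (by omega)
      have b3 := Nat.mul_le_mul_left g a7
      nlinarith
  have h1 := key w le_rfl
  have h2 := sum_le_sum fun k (_ : k ∈ univ) => hS k (p + w)
  simp only [sum_const, card_univ, smul_eq_mul] at h2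
  omega

theorem doubling (y : ℕ → ℕ) (w g m : ℕ) (hw : 0 < w) (hg : 4 * m ≤ w * g) (s : ℕ) :
    ∀ p, (∀ x, p ≤ x → x + w ≤ p + s * w → w * (g * y (x + w) + 1) ≤ 2 * m * y x) →
      2 ^ s ≤ y p + 1 := by
  induction s with
  | zero => intro p _; simp
  | succ s ih =>
    intro p h
    have e : p + (s + 1) * w = p + w + s * w := by ring
    have h1 := ih (p + w) fun x h1 h2 => h x (by omega) (by omega)
    have h2 := h p le_rfl (by omega)
    have h3 := Nat.mul_le_mul_right (y (p + w)) hg
    have h4 : 2 * m * (2 * y (p + w)) < 2 * m * y p := by nlinarith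
    have h5 := Nat.lt_of_mul_lt_mul_left h4
    rw [pow_succ]
    omega

omit [DecidableEq V] in
theorem vand (ht : Function.Injective t) (x : V → K)
    (h : ∀ e < Fintype.card V, ∑ j, t j ^ e * x j = 0) : x = 0 := by
  let ε := (Fintype.equivFin V).symm
  have h1 := Matrix.eq_zero_of_forall_pow_sum_mul_pow_eq_zero (f := t ∘ ε) (v := x ∘ ε)
    (ht.comp ε.injective) fun i => by
      rw [← h i i.2, ← ε.sum_comp]
      exact sum_congr rfl fun j _ => mul_comm _ _
  funext j
  simpa using congrFun h1 (ε.symm j)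

omit [DecidableEq V] in
theorem top_le (ht : Function.Injective t) (b m : ℕ) (hm : Fintype.card V ≤ b + m) (k : V) :
    finrank K (Rw (fun _ _ => True) (pw t) b k) ≤ m := by
  let f : (V → K) →ₗ[K] (Fin m → K) :=
    LinearMap.pi fun e => ∑ j, t j ^ (b + e) • LinearMap.proj j
  have := fr_le (Rw (fun _ _ => True) (pw t) b k) ⊤ f (fun _ _ => trivial) fun x hx h =>
    vand ht x fun e he => by
      by_cases h1 : e < b
      · exact hx.2 e h1
      · have := congrFun h ⟨e - b, by omega⟩
        simpa [f, show b + (e - b) = e by omega] using this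
  rwa [finrank_top, finrank_fintype_fun_eq_card, Fintype.card_fin] at this

omit [DecidableEq V] in
theorem st_zero (κ κ' : ℕ → V → K) (r : ℕ) (k : V) :
    finrank K (St (Rw (fun _ _ => True) κ r) κ' 0) =
      Fintype.card V * finrank K (Rw (fun _ _ => True) κ r k) := by
  have : St (Rw (fun _ _ => True) κ r) κ' 0 =
      Submodule.pi Set.univ fun _ : V => Rw (fun _ _ => True) κ r k :=
    Submodule.ext fun _ => ⟨fun h i _ => h.1 i, fun h => ⟨fun i => h i trivial,
      fun _ he => absurd he (Nat.not_lt_zero _)⟩⟩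
  rw [this, fr_pi, sum_const, card_univ, smul_eq_mul]

theorem sk_small {π : V → V → Prop} [CharZero K] (ht : Function.Injective t) (D : ℕ)
    (hD : Fintype.card V ≤ D + 1) : ∀ M ∈ Sk π (pw t) D, M = 0 := by
  intro M hM
  funext k j
  have h0 : M k k = 0 := by linear_combination (1 / 2 : K) * hM.1 k k
  by_cases hj : j = k
  · rw [hj]; exact h0
  have h1 := vand (V := {i // i ≠ k}) (t := fun i => t i) (ht.comp Subtype.val_injective)
    (fun i => M k i) fun e he => by
      rw [Fintype.card_subtype_compl, Fintype.card_subtype_eq] at he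
      have h2 := (hM.2 k).2 e (by omega)
      rw [← add_sum_erase _ _ (mem_univ k), h0, mul_zero, zero_add] at h2
      rw [← h2]
      exact (sum_subtype (univ.erase k) (by simp) fun j => pw t e j * M k j).symm
  exact congrFun h1 ⟨j, hj⟩

theorem two_sided {π : V → V → Prop} (hc : ∀ i, t i ≠ c) (ht : Function.Injective t)
    (σ : V → K ≃+* K) (s1 : ∀ k i, i ≠ k → σ k (t i) = t i) (s2 : ∀ k, σ k (t k) = c)
    (hπ : ∀ a b, π a b → π b a) (hrefl : ∀ a, π a a) (κ : ℕ → V → K) (r m g p w : ℕ) (hw : 0 < w)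
    (hT : finrank K (St (Rw π (pw t) (p + 1)) κ r) <
      finrank K (St (Rw π (pw t) (p + 1)) (pw t) (p + w))) (hg : r + g ≤ p + 1)
    (hm : Fintype.card V ≤ p + m) :
    w * (g * finrank K (Um (Rw π (pw t) (p + w)) t c (p + w)) + 1) ≤
      2 * m * finrank K (Um (Rw π (pw t) p) t c p) := by
  let μ : V → (V → K) →ₗ[K] (V → K) := fun k =>
    LinearMap.pi fun j => (t j - t k) • LinearMap.proj j
  let A : V → V → Submodule K (V → K) := fun k => Rw (fun i j => π i j ∧ j ≠ k) (pw t) p
  have hX : ∀ k i, Rw π (pw t) (p + 1) i ≤ Rw (fun _ _ => True) (pw t) (p + 1) k :=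
    fun k i => rw_top i k
  have m1 : ∀ k i, ∀ x ∈ Rw π (pw t) (p + 1) i, μ k x ∈ A k i := fun k i x hx =>
    ⟨fun j h => by
      change (t j - t k) * x j = 0
      by_cases hj : j = k
      · rw [hj, sub_self, zero_mul]
      · rw [hx.1 j fun h' => h ⟨h', hj⟩, mul_zero], fun e he => by
      have h1 := hx.2 (e + 1) (by omega)
      have h2 := hx.2 e (by omega)
      change ∑ j, pw t e j * ((t j - t k) * x j) = 0
      refine Eq.trans ?_ (show ∑ j, pw t (e + 1) j * x j - t k * ∑ j, pw t e j * x j = 0 by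
        rw [h1, h2, mul_zero, sub_zero])
      rw [mul_sum, ← sum_sub_distrib]
      exact sum_congr rfl fun j _ => by simp only [pw]; ring⟩
  have m2 : ∀ k, ∀ x ∈ Rw (fun _ _ => True) (pw t) (p + 1) k, μ k x = 0 → x = 0 :=
    fun k x hx h => by
      have h1 : ∀ j, j ≠ k → x j = 0 := fun j hj =>
        (mul_eq_zero.1 (congrFun h j)).resolve_left (sub_ne_zero.2 fun h => hj (ht h))
      have h2 := hx.2 0 (by omega)
      rw [sum_eq_single k (fun j _ hj => by rw [h1 j hj, mul_zero]) (by simp), pw, pow_zero,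
        one_mul] at h2
      funext j
      by_cases hj : j = k
      · rw [hj]; exact h2
      · exact h1 j hj
  have h1 := window (L := Rw π (pw t) (p + 1)) hc (fun k a => finrank K (St (A k) (pw t) a)) κ r m g
    p w (fun k a => dual_row hc ht k (σ k) (s1 k) (s2 k) (A k)
      (fun i x hx => ⟨fun j h => by rw [Function.comp_apply, hx.1 j h, map_zero], fun e he => by
        rw [← map_zero (σ k), ← hx.2 e he, map_sum]
        refine sum_congr rfl fun j _ => ?_
        by_cases hj : j = k
        · simp [hx.1 j fun h => h.2 hj]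
        · simp [pw, s1 k j hj]⟩) (μ k) _ (m1 k) (hX k) (m2 k)
      (fun x hx h => ⟨fun j hj => (mul_eq_zero.1 (h.1 j fun h' => hj h'.1)).resolve_left
        (sub_ne_zero.2 fun h' => hj (ht h' ▸ hrefl j)), hx.2⟩) a)
    (fun k a => fr_le _ _ ((μ k).compLeft V) (fun M hM => comp_mem (μ k) (m1 k) hM)
      fun M hM h => funext fun i => m2 k _ (hX k i (hM.1 i)) (congrFun h i)) hT hg (by omega)
  have h2 : ∀ k, finrank K (St (A k) (pw t) p) ≤
      finrank K (St (zr (Rw π (pw t) p) k) (pw t) p) := fun k =>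
    fr_le _ _ trp (fun M hM => zr_mem.2 ⟨log_trp hπ
      ⟨fun i => ⟨fun j h => (hM.1 i).1 j fun h' => h h'.1, (hM.1 i).2⟩, hM.2⟩,
        funext fun i => (hM.1 i).1 k fun h => h.2 rfl⟩)
      fun M _ h => funext₂ fun i j => congrFun (congrFun h j) i
  have h3 := sum_le_sum fun k (_ : k ∈ univ) => h2 k
  have h4 := sum_congr (rfl : (univ : Finset V) = univ) fun k _ => zr_rank (Rw π (pw t) p) (pw t) k p
  simp only [sum_add_distrib, sum_const, card_univ, smul_eq_mul] at h4
  have h5 := rows (L := Rw π (pw t) p) hc p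
  have h6 := rn' (L := Rw π (pw t) p) hc p
  have h7 := fr_le (St (Rw π (pw t) p) (pw t) (p + 1)) (St (Rw π (pw t) (p + 1)) (pw t) p) trp
    (fun M => log_trp hπ) fun M _ h => funext₂ fun i j => congrFun (congrFun h j) i
  have h8 : finrank K (Um (Rw π (pw t) (p + 1)) t c p) ≤ finrank K (Um (Rw π (pw t) p) t c p) :=
    Submodule.finrank_mono (Submodule.map_mono (St_mono (log_mono (by omega)) le_rfl))
  have h9 : finrank K (Um (Rw π (pw t) (p + w)) t c (p + w)) ≤
      finrank K (Um (Rw π (pw t) (p + 1)) t c (p + w)) :=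
    Submodule.finrank_mono (Submodule.map_mono (St_mono (log_mono (by omega)) le_rfl))
  have c1 := Nat.mul_le_mul_left (Fintype.card V) (h6.trans (Nat.add_le_add_left h7 _))
  have c2 := Nat.mul_le_mul_right (finrank K (Um (Rw π (pw t) p) t c p)) hm
  have c3 := Nat.mul_le_mul_left m h8
  have c4 := Nat.mul_le_mul_left (w * g) h9
  nlinarith

theorem core3 [CharZero K] (t : V → K) (c : K) (ht : Function.Injective t) (hc : ∀ i, t i ≠ c)
    (κ : ℕ → V → K) (σ : V → K ≃+* K) (s1 : ∀ k i, i ≠ k → σ k (t i) = t i)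
    (s2 : ∀ k, σ k (t k) = c) (s3 : ∀ k e i, σ k (κ e i) = κ e i) (r m w s D : ℕ) (hw : 0 < w)
    (hJ : 4 * m ≤ w * (s * w)) (hs : m + 1 < 2 ^ s) (hm : Fintype.card V ≤ r + m)
    (hD : r + 5 * (s * w) + 2 ≤ D)
    (π : V → V → Prop) (hπ : ∀ a b, π a b → π b a) (hrefl : ∀ a, π a a)
    (sym : ∀ M : V → V → K, (∀ a b, M b a = M a b) → (∀ a, M a ∈ Rw π κ r a) → M = 0)
    (semi : finrank K (Sk π κ D) ≤ finrank K (Sk π (pw t) D))
    (semi2 : ∀ b, finrank K (St (Rw (fun _ _ => True) κ b) (pw t) 0) ≤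
      finrank K (St (Rw (fun _ _ => True) (pw t) b) (pw t) 0)) :
    ∀ M ∈ Sk π (pw t) D, M = 0 := by
  intro M hM
  by_contra h0
  obtain ⟨k, -⟩ := Function.ne_iff.1 h0
  have hn : 0 < Fintype.card V := Fintype.card_pos_iff.2 ⟨k⟩
  have a0 : 1 ≤ finrank K (Sk π (pw t) D) :=
    Submodule.one_le_finrank_iff.2 ((Submodule.ne_bot_iff _).2 ⟨M, hM, h0⟩)
  obtain ⟨J, hJ'⟩ : ∃ J, s * w = J := ⟨_, rfl⟩
  rw [hJ'] at hJ hD
  obtain ⟨q, rfl⟩ : ∃ q, D = q + J + J + J + 1 := ⟨D - J - J - J - 1, by omega⟩
  have b3 : finrank K (St (Rw π κ (q + J)) (pw t) (q + J + J)) ≤ finrank K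
      (St (Rw π κ (q + J)) (fun e => if e < r then κ e else κ (e + (q + J - r))) q) := by
    by_contra hT
    have h1 := doubling (fun x => finrank K (Um (Rw π κ (q + J)) t c x)) w J m hw hJ s (q + J)
      fun x h1 h2 => by
        have h3 := window (L := Rw π κ (q + J)) hc
          (fun _ a => finrank K (St (Rw π κ (q + J)) (pw t) a))
          (fun e => if e < r then κ e else κ (e + (q + J - r))) q m J x w
          (fun k a => dual_row hc ht k (σ k) (s1 k) (s2 k) (Rw π κ (q + J))
            (fun i x hx => ⟨fun j h => by rw [Function.comp_apply, hx.1 j h, map_zero],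
              fun e he => by
                rw [← map_zero (σ k), ← hx.2 e he, map_sum]
                exact sum_congr rfl fun j _ => by rw [map_mul, s3]; rfl⟩) LinearMap.id ⊤
            (fun _ _ h => h) (fun _ => le_top) (fun _ _ h => h) (fun _ _ h => h) a)
          (fun _ _ => le_rfl) ((not_le.1 hT).trans_le
            (Submodule.finrank_mono (St_mono (fun _ => le_rfl) (by omega)))) (by omega) (by omega)
        simp only [sum_const, card_univ, smul_eq_mul] at h3
        nlinarith
    have h2 : finrank K (Um (Rw π κ (q + J)) t c (q + J)) ≤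
        finrank K (Rw (fun _ _ => True) κ (q + J) k) :=
      Submodule.finrank_mono (um_le (fun i => rw_top i k) _)
    have h3 := semi2 (q + J)
    rw [st_zero _ _ _ k, st_zero _ _ _ k] at h3
    have h4 := Nat.le_of_mul_le_mul_left h3 hn
    have h5 := top_le ht (q + J) m (by omega) k
    omega
  have b4 : St (Rw π κ (q + J)) (fun e => if e < r then κ e else κ (e + (q + J - r))) q ≤
      Sk π κ (q + J + J + J + 1) := fun N hN => by
    have hN' := (log_trp hπ hN).1
    have e1 := sym (N + trp N) (fun a b => add_comm _ _) fun a => add_mem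
      ⟨(hN.1 a).1, fun e he => (hN.1 a).2 e (by omega)⟩
      ⟨(hN' a).1, fun e he => by simpa only [if_pos he] using (hN' a).2 e (by omega)⟩
    have e2 : ∀ i j, N j i = -N i j := fun i j =>
      eq_neg_of_add_eq_zero_right (congrFun (congrFun e1 i) j)
    refine ⟨e2, fun i => ⟨(hN.1 i).1, fun e he => ?_⟩⟩
    by_cases h : e < q + J
    · exact (hN.1 i).2 e h
    · have e3 := (hN' i).2 (e - (q + J - r)) (by omega)
      simp only [if_neg (show ¬ e - (q + J - r) < r by omega),
        Nat.sub_add_cancel (show q + J - r ≤ e by omega)] at e3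
      rw [← neg_eq_zero, ← e3, ← sum_neg_distrib]
      exact sum_congr rfl fun j _ => by rw [← mul_neg, ← e2]; rfl
  have b5 := (Submodule.finrank_mono b4).trans semi
  have b6 := log_two (π := π) ht (q + J + J + J)
  have b2 := fr_le (St (Rw π (pw t) (q + J + J)) κ (q + J)) (St (Rw π κ (q + J)) (pw t) (q + J + J))
    trp (fun M => log_trp hπ) fun M _ h => funext₂ fun i j => congrFun (congrFun h j) i
  have h1 := doubling (fun x => finrank K (Um (Rw π (pw t) x) t c x)) w J m hw hJ s (q + J + J)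
    fun x h1 h2 => two_sided hc ht σ s1 s2 hπ hrefl κ (q + J) m J x w hw (by
      have h3 : finrank K (St (Rw π (pw t) (x + 1)) κ (q + J)) ≤
          finrank K (St (Rw π (pw t) (q + J + J)) κ (q + J)) :=
        Submodule.finrank_mono (St_mono (log_mono (by omega)) le_rfl)
      have h4 : finrank K (St (Rw π (pw t) (q + J + J + J)) (pw t) (q + J + J + J)) ≤
          finrank K (St (Rw π (pw t) (x + 1)) (pw t) (x + w)) :=
        Submodule.finrank_mono (St_mono (log_mono (by omega)) (by omega))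
      omega) (by omega) (by omega)
  have h2 : finrank K (Um (Rw π (pw t) (q + J + J)) t c (q + J + J)) ≤
      finrank K (Rw (fun _ _ => True) (pw t) (q + J + J) k) :=
    Submodule.finrank_mono (um_le (fun i => rw_top i k) _)
  have h5 := top_le ht (q + J + J) m (by omega) k
  omega

end Pool.Agent.Lib.MP_9087e4_co.Sh
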