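import Pool.Agent.Lib.MP_9087e4_co.Sh.Spec
import Pool.Agent.Lib.MP_9087e4_co.Mz.Spec
import Pool.Agent.Lib.MP_9087e4_co.Mx.Gen

/-! The generic field of rational functions in the coordinates and the curve parameters. -/

set_option autoImplicit false

namespace Pool.Agent.Lib.MP_9087e4_co.Sh

open Finset Module MvPolynomial Pool.Agent.Lib.MP_9087e4_co.Mx Pool.Agent.Lib.MP_9087e4_co.Mz

/-- polynomials in coordinates `(v, e)`, parameters `some v` and one spare variable `none` -/
abbrev PA (V : Type) : Type := MvPolynomial ((V × ℕ) ⊕ Option V) ℚ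

/-- their field of fractions -/
abbrev KK (V : Type) : Type := FractionRing (PA V)

variable {V : Type}

/-- the homogeneous generic coordinates -/
noncomputable def kA : ℕ → V → PA V
  | 0, _ => 1
  | e + 1, i => X (.inl (i, e))

/-- the curve parameters and the spare variable -/
noncomputable def tA (o : Option V) : PA V := X (.inr o)

/-- the inclusion of the polynomials -/
noncomputable def io (V : Type) : PA V →+* KK V := algebraMap (PA V) (KK V)

theorem io_inj : Function.Injective (io V) := IsFractionRing.injective (PA V) (KK V)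

/-- the generic coordinates in the field -/
noncomputable def kK (e : ℕ) (i : V) : KK V := io V (kA e i)

/-- the curve parameters in the field -/
noncomputable def tK (i : V) : KK V := io V (tA (some i))

/-- the spare variable in the field -/
noncomputable def cK (V : Type) : KK V := io V (tA none)

theorem tA_inj : Function.Injective (tA : Option V → PA V) := fun _ _ h =>
  Sum.inr_injective (X_injective h)

theorem tK_inj : Function.Injective (tK : V → KK V) := fun _ _ h =>
  Option.some_injective _ (tA_inj (io_inj h))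

theorem tK_ne (i : V) : tK i ≠ cK V := fun h => Option.some_ne_none i (tA_inj (io_inj h))

open Classical in
/-- the automorphism that exchanges the parameter of `k` and the spare variable -/
noncomputable def sw (k : V) : KK V ≃+* KK V :=
  IsFractionRing.ringEquivOfRingEquiv
    (renameEquiv ℚ (Equiv.swap (Sum.inr (some k) : (V × ℕ) ⊕ Option V) (.inr none))).toRingEquiv

open Classical in
theorem sw_X (k : V) (x : (V × ℕ) ⊕ Option V) :
    sw k (io V (X x)) = io V (X (Equiv.swap (Sum.inr (some k)) (.inr none) x)) := by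
  simp [sw, io]

theorem sw_1 (k i : V) (h : i ≠ k) : sw k (tK i) = tK i := by
  classical
  rw [tK, tA, sw_X, Equiv.swap_apply_of_ne_of_ne (by simpa using h) (by simp)]

theorem sw_2 (k : V) : sw k (tK k) = cK V := by
  classical
  rw [tK, tA, sw_X, Equiv.swap_apply_left, cK, tA]

theorem sw_3 (k : V) (e : ℕ) (i : V) : sw k (kK e i) = kK e i := by
  classical
  rcases e with _ | e
  · rw [kK, kA, map_one, map_one]
  · rw [kK, kA, sw_X, Equiv.swap_apply_of_ne_of_ne (by simp) (by simp)]

/-- the specialisation of the coordinates to the moment curve -/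
noncomputable def sb (V : Type) : PA V →+* KK V :=
  (io V).comp (aeval (R := ℚ) (Sum.elim (fun x : V × ℕ => tA (some x.1) ^ (x.2 + 1)) tA)).toRingHom

theorem sb_k : (fun e i => sb V (kA e i)) = pw tK := by
  funext e i
  rcases e with _ | e <;> simp [sb, kA, pw, tK]

theorem sb_t : (fun (e : ℕ) i => sb V (tA (some i) ^ e)) = pw tK := by
  funext e i
  simp [sb, tA, pw, tK]

theorem io_t : (fun (e : ℕ) i => io V (tA (some i) ^ e)) = pw tK := by
  funext e i
  simp [pw, tK]

variable [Fintype V]

theorem semi_Sk (π : V → V → Prop) (r : ℕ) :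
    finrank (KK V) (Sk π kK r) ≤ finrank (KK V) (Sk π (pw tK) r) := by
  have h := spec_Sk (sb V) (io V) io_inj π kA r
  rwa [sb_k] at h

theorem semi_row (π : V → V → Prop) (r a : ℕ) :
    finrank (KK V) (St (Rw π kK r) (pw tK) a) ≤ finrank (KK V) (St (Rw π (pw tK) r) (pw tK) a) := by
  have h := spec_St (sb V) (io V) io_inj π (fun e i => tA (some i) ^ e) a kA r
  rwa [sb_k, sb_t, io_t] at h

theorem semi_col (π : V → V → Prop) (r b : ℕ) :
    finrank (KK V) (St (Rw π (pw tK) b) kK r) ≤ finrank (KK V) (St (Rw π (pw tK) b) (pw tK) r) := by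
  have h := spec_St (sb V) (io V) io_inj π kA r (fun e i => tA (some i) ^ e) b
  rwa [sb_k, sb_t, io_t] at h

variable [LinearOrder V] {d : ℕ} {F : Finset (Sym2 V)}

theorem sym_real (hF : ∀ e ∈ F, ¬ e.IsDiag) {p : V → Fin d → ℝ} (h : Ind (rigRow p) F)
    (M : V → V → ℝ) (hs : ∀ a b, M b a = M a b) (h0 : ∀ a b, s(a, b) ∉ F → M a b = 0)
    (h1 : ∀ a, ∑ b, M a b = 0) (h2 : ∀ a l, ∑ b, p b l * M a b = 0) : M = 0 := by
  have key := ind_iff.1 h (Sym2.lift ⟨M, fun a b => hs b a⟩) (funext fun x => by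
    obtain ⟨u, l⟩ := x
    rw [Finset.sum_apply, spec_star F u _ (fun e he => by
      induction e using Sym2.ind with
      | _ x y =>
        rw [Sym2.mem_iff, not_or] at he
        simp [rigRow, he.1, he.2])]
    have h3 : p u l * ∑ b, M u b - ∑ b, p b l * M u b = 0 := by rw [h1, h2, mul_zero, sub_zero]
    rw [mul_sum, ← sum_sub_distrib] at h3
    refine Eq.trans (sum_congr rfl fun v _ => ?_) h3
    split_ifs with h4
    · simp only [rigRow, Sym2.lift_mk, Pi.smul_apply, if_true, if_neg (spec_ne hF h4), smul_eq_mul]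
      ring
    · rw [h0 u v h4]
      ring)
  funext a b
  by_cases h3 : s(a, b) ∈ F
  · exact key _ h3
  · exact h0 a b h3

theorem sym_gen (hF : ∀ e ∈ F, ¬ e.IsDiag) (h : RInd d F) (M : V → V → KK V)
    (hs : ∀ a b, M b a = M a b) (hM : ∀ a, M a ∈ Rw (fun a b => s(a, b) ∈ F) kK (d + 1) a) :
    M = 0 := by
  obtain ⟨p, hp⟩ := h
  let φ : PA V →+* ℝ := (aeval (R := ℚ) (Sum.elim
    (fun x : V × ℕ => if h : x.2 < d then p x.1 ⟨x.2, h⟩ else 0) fun _ => 0)).toRingHom
  have h1 := spec_Gn φ (io V) io_inj 1 1 (fun a b => s(a, b) ∈ F) kA 0 kA (d + 1)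
  have h2 : Gn (φ 1) (φ 1) (fun a b => s(a, b) ∈ F) (fun e i => φ (kA e i)) 0
      (fun e i => φ (kA e i)) (d + 1) = ⊥ := by
    refine eq_bot_iff.2 fun N hN => sym_real hF hp N (fun a b => by simpa using hN.1 a b)
      (fun a => (hN.2.1 a).1) (fun a => ?_) fun a l => ?_
    · simpa [kA] using (hN.2.1 a).2 0 (by omega)
    · simpa [kA, φ] using (hN.2.1 a).2 (l + 1) (by omega)
  rw [h2, finrank_bot, Nat.le_zero, Submodule.finrank_eq_zero] at h1
  exact (Submodule.eq_bot_iff _).1 h1 M ⟨fun a b => by rw [hs a b], hM,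
    fun _ he => absurd he (Nat.not_lt_zero _)⟩

theorem ret (k : ℕ) (hF : ∀ e ∈ F, ¬ e.IsDiag)
    (h : ∀ M ∈ Sk (fun a b => s(a, b) ∈ F) (pw (tK : V → KK V)) (k + 1), M = 0) : GInd k F := by
  obtain ⟨g, hg⟩ := exists_gen V
  refine gind_of_mfree k F hF g hg.injective fun ω h1 h2 h3 u _ v => ?_
  let φ : MvPolynomial V ℚ →+* KK V :=
    (io V).comp (rename fun i : V => (Sum.inr (some i) : (V × ℕ) ⊕ Option V)).toRingHom
  have h4 := spec_Sk φ (aeval g : MvPolynomial V ℚ →ₐ[ℚ] ℝ).toRingHom hg
    (fun a b => s(a, b) ∈ F) (fun e i => X i ^ e) (k + 1)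
  have h5 : (fun (e : ℕ) (i : V) => φ (X i ^ e)) = pw tK := by
    funext e i
    simp [φ, pw, tK, tA]
  rw [h5, (Submodule.eq_bot_iff _).2 h, finrank_bot, Nat.le_zero, Submodule.finrank_eq_zero] at h4
  have h6 := (Submodule.eq_bot_iff _).1 h4 ω ⟨h1, fun a => ⟨h2 a, fun e he => by
    simpa [mul_comm] using h3 a (mem_univ a) e he⟩⟩
  rw [h6]
  rfl

end Pool.Agent.Lib.MP_9087e4_co.Sh
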