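import Pool.Agent.Lib.MP_9087e4_co.Sh.Dual
import Pool.Agent.Lib.MP_9087e4_co.Sh.Env

/-! `core3` in the generic field, and the choice of its parameters. -/

set_option autoImplicit false

namespace Pool.Agent.Lib.MP_9087e4_co.Sh

open Finset Module MvPolynomial Pool.Agent.Lib.MP_9087e4_co.Mx Pool.Agent.Lib.MP_9087e4_co.Mz

variable {V : Type} [Fintype V] [LinearOrder V] {d : ℕ} {F : Finset (Sym2 V)}

theorem sym_real' (hF : ∀ e ∈ F, ¬ e.IsDiag) {p : V → Fin d → ℝ} (h : Ind (rigRow p) F)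
    (M : V → V → ℝ) (hs : ∀ a b, M b a = M a b) (h0 : ∀ a b, ¬ (s(a, b) ∈ F ∨ a = b) → M a b = 0)
    (h1 : ∀ a, ∑ b, M a b = 0) (h2 : ∀ a l, ∑ b, p b l * M a b = 0) : M = 0 := by
  have key := ind_iff.1 h (Sym2.lift ⟨M, fun a b => hs b a⟩) (funext fun x => by
    obtain ⟨u, l⟩ := x
    rw [Finset.sum_apply, spec_star F u _ (fun e he => by
      induction e using Sym2.ind with
      | _ x y =>
        rw [Sym2.mem_iff, not_or] at he
        simp [rigRow, he.1, he.2])]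
    have h3 : p u l * ∑ b, M u b - ∑ b, p b l * M u b = 0 := by rw [h1, h2, mul_zero, sub_zero]
    rw [mul_sum, ← sum_sub_distrib] at h3
    refine Eq.trans (sum_congr rfl fun v _ => ?_) h3
    split_ifs with h4
    · simp only [rigRow, Sym2.lift_mk, Pi.smul_apply, if_true, if_neg (spec_ne hF h4), smul_eq_mul]
      ring
    · by_cases h5 : u = v
      · rw [← h5, sub_self]
      · rw [h0 u v (not_or.2 ⟨h4, h5⟩)]
        ring)
  have h3 : ∀ a b, b ≠ a → M a b = 0 := fun a b hab => by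
    by_cases h3 : s(a, b) ∈ F
    · exact key _ h3
    · exact h0 a b (not_or.2 ⟨h3, hab.symm⟩)
  funext a b
  by_cases h4 : b = a
  · have := h1 a
    rw [sum_eq_single a (fun b _ => h3 a b) (by simp)] at this
    rw [h4]
    exact this
  · exact h3 a b h4

theorem sym_gen' (hF : ∀ e ∈ F, ¬ e.IsDiag) (h : RInd d F) (M : V → V → KK V)
    (hs : ∀ a b, M b a = M a b)
    (hM : ∀ a, M a ∈ Rw (fun a b => s(a, b) ∈ F ∨ a = b) kK (d + 1) a) : M = 0 := by
  obtain ⟨p, hp⟩ := h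
  let φ : PA V →+* ℝ := (aeval (R := ℚ) (Sum.elim
    (fun x : V × ℕ => if h : x.2 < d then p x.1 ⟨x.2, h⟩ else 0) fun _ => 0)).toRingHom
  have h1 := spec_Gn φ (io V) io_inj 1 1 (fun a b => s(a, b) ∈ F ∨ a = b) kA 0 kA (d + 1)
  have h2 : Gn (φ 1) (φ 1) (fun a b => s(a, b) ∈ F ∨ a = b) (fun e i => φ (kA e i)) 0
      (fun e i => φ (kA e i)) (d + 1) = ⊥ := by
    refine eq_bot_iff.2 fun N hN => sym_real' hF hp N (fun a b => by simpa using hN.1 a b)
      (fun a => (hN.2.1 a).1) (fun a => ?_) fun a l => ?_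
    · simpa [kA] using (hN.2.1 a).2 0 (by omega)
    · simpa [kA, φ] using (hN.2.1 a).2 (l + 1) (by omega)
  rw [h2, finrank_bot, Nat.le_zero, Submodule.finrank_eq_zero] at h1
  exact (Submodule.eq_bot_iff _).1 h1 M ⟨fun a b => by rw [hs a b], hM,
    fun _ he => absurd he (Nat.not_lt_zero _)⟩

theorem num_dual {d m D : ℕ} (hD : (d : ℝ) + 14 * √(m * Real.log m) ≤ D) :
    d + m ≤ D + 1 ∨ ∃ w s : ℕ, 0 < w ∧ 4 * m ≤ w * (s * w) ∧ m < 2 ^ s ∧
      d + 1 + 5 * (s * w) + 2 ≤ D := by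
  have h1 := Real.sqrt_nonneg (m * Real.log m)
  by_cases hs : d + m ≤ D + 1
  · exact Or.inl hs
  right
  have h0 : (D : ℝ) + 1 < d + m := by exact_mod_cast not_le.1 hs
  have h2 : 2 ≤ m := by
    have : (1 : ℝ) < m := by linarith
    exact_mod_cast this
  have h2' : (2 : ℝ) ≤ m := by exact_mod_cast h2
  have l1 := Real.log_two_gt_d9
  have h3 : ∀ k : ℕ, (2 : ℝ) ^ k ≤ m → k * Real.log 2 ≤ Real.log m := fun k hk => by
    rw [← Real.log_pow]
    exact Real.log_le_log (by positivity) hk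
  have h4 := h3 1 (by linarith)
  have h5 := Real.sq_sqrt (show (0 : ℝ) ≤ m * Real.log m by push_cast at h4; nlinarith)
  have h10 := h3 (Nat.log 2 m) (by exact_mod_cast Nat.pow_log_le_self 2 (by omega))
  set z := √(m * Real.log m)
  set L := Real.log m
  have h6 : 196 * L ≤ m := by
    have : 196 * (m * L) ≤ m * m := by nlinarith
    nlinarith
  have h7 := h3 7 (by push_cast at h4; linarith)
  have h8 := h3 9 (by push_cast at h7; linarith)
  have h9 := h3 10 (by push_cast at h8; linarith)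
  push_cast at h9
  obtain ⟨s, hs'⟩ : ∃ s : ℕ, s = Nat.log 2 m + 1 := ⟨_, rfl⟩
  have a0 : (0 : ℝ) < s := by rw [hs']; positivity
  have a1 : (s : ℝ) ≤ 1.6 * L := by
    rw [hs']
    push_cast
    nlinarith [Nat.cast_nonneg (α := ℝ) (Nat.log 2 m)]
  have a2 : 14 * L ≤ z := by nlinarith
  have a3 := Real.sq_sqrt (show (0 : ℝ) ≤ 4 * m / s by positivity)
  have a4 := Nat.ceil_lt_add_one (Real.sqrt_nonneg (4 * m / s))
  have a5 := Nat.le_ceil √(4 * m / s)
  have a6 : 0 < √(4 * m / s) := Real.sqrt_pos.2 (by positivity)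
  set x := √(4 * m / s)
  have a7 : x ^ 2 * s = 4 * m := by rw [a3]; field_simp
  have a8 : s * x ≤ 2.53 * z := by
    refine (pow_le_pow_iff_left₀ (by positivity) (by positivity) two_ne_zero).1 ?_
    have e : (s * x) ^ 2 = s * (4 * m) := by rw [← a7]; ring
    rw [e, mul_pow, h5]
    nlinarith
  refine ⟨⌈x⌉₊, s, Nat.ceil_pos.2 a6, ?_, hs' ▸ Nat.lt_pow_succ_log_self one_lt_two m, ?_⟩
  · have : (4 : ℝ) * m ≤ ⌈x⌉₊ * (s * ⌈x⌉₊) := by
      rw [← a7]
      nlinarith [mul_le_mul a5 a5 a6.le (a6.le.trans a5)]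
    exact_mod_cast this
  · have : (d : ℝ) + 1 + 5 * (s * ⌈x⌉₊) + 2 ≤ D := by
      nlinarith [mul_le_mul_of_nonneg_left a4.le a0.le]
    exact_mod_cast this

theorem shift3 (d m D : ℕ) (hd : 1 ≤ d) (hm : Fintype.card V ≤ d + m)
    (hD : (d : ℝ) + 14 * √(m * Real.log m) ≤ D)
    (F : Finset (Sym2 V)) (hF : ∀ e ∈ F, ¬ e.IsDiag) (h : RInd d F) : GInd (D - 1) F := by
  have h0 : d ≤ D := by
    have : (d : ℝ) ≤ D := by linarith [Real.sqrt_nonneg (m * Real.log m)]
    exact_mod_cast this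
  refine ret (D - 1) hF ?_
  rw [Nat.sub_add_cancel (by omega)]
  rcases num_dual hD with h1 | ⟨w, s, h1, h2, h3, h4⟩
  · exact sk_small tK_inj D (by omega)
  · rcases m with _ | m
    · exact sk_small tK_inj D (by omega)
    · exact fun M hM => core3 tK (cK V) tK_inj tK_ne kK sw sw_1 sw_2 sw_3 (d + 1) m w s D h1
        (by omega) h3 (by omega) h4 (fun a b => s(a, b) ∈ F ∨ a = b)
        (fun a b h => h.imp (fun h => by rwa [Sym2.eq_swap]) Eq.symm) (fun _ => Or.inr rfl)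
        (sym_gen' hF h) (semi_Sk _ D) (fun b => semi_row _ b 0) M
        ⟨hM.1, fun i => ⟨fun j hj => (hM.2 i).1 j fun h' => hj (Or.inl h'), (hM.2 i).2⟩⟩

end Pool.Agent.Lib.MP_9087e4_co.Sh
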