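import Pool.Agent.Lib.MP_9087e4_co.Sh.Log
import Pool.Agent.Lib.MP_9087e4_co.Sh.Env

set_option autoImplicit false

namespace Pool.Agent.Lib.MP_9087e4_co.Sh

open Finset Module Pool.Agent.Lib.MP_9087e4_co.Mx Pool.Agent.Lib.MP_9087e4_co.Mz

/-- `core2` in the generic field, and back to the reals -/
theorem shift2 {V : Type} [Fintype V] [LinearOrder V] (d J D : ℕ) (hD : d + 1 + 3 * J + 2 ≤ D)
    (hJ : ∀ x, 0 < x → x ≤ D → 5 * D * x ^ J ≤ ∏ i ∈ range (J - 1), (x + i + 1))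
    (F : Finset (Sym2 V)) (hF : ∀ e ∈ F, ¬ e.IsDiag) (h : RInd d F) : GInd (D - 1) F := by
  refine ret (D - 1) hF ?_
  rw [Nat.sub_add_cancel (by omega)]
  exact core2 tK (cK V) tK_inj tK_ne kK sw sw_1 sw_2 sw_3 (d + 1) J D (by omega) hD hJ _
    (fun a b h => by rwa [Sym2.eq_swap]) (fun a h => spec_ne hF h rfl) (sym_gen hF h)
    fun π => semi_Sk π D

end Pool.Agent.Lib.MP_9087e4_co.Sh
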