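import Pool.Agent.Lib.MP_9087e4_co.Sh.Defs

/-! The comparison with Gaussian decay. -/

set_option autoImplicit false

namespace Pool.Agent.Lib.MP_9087e4_co.Sh

open Finset Module

theorem log_seq (u : ℕ → ℕ) (r δ J : ℕ) (h : ∀ j < J, (r + J - j) * u j + δ ≤ r * u (j + 1)) :
    ∀ j < J, δ * ∏ i ∈ range j, (r + J - (i + 1)) ≤ r ^ (j + 1) * u (j + 1) := fun j => by
  induction j with
  | zero => intro hj; have := h 0 hj; simp only [range_zero, prod_empty, mul_one, zero_add, pow_one] at *; omega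
  | succ j ih =>
    intro hj
    rw [prod_range_succ, ← mul_assoc, pow_succ r (j + 1), mul_assoc (r ^ (j + 1))]
    refine (Nat.mul_le_mul_right _ (ih (by omega))).trans ?_
    rw [mul_assoc, mul_comm (u _)]
    exact Nat.mul_le_mul_left _ ((Nat.le_add_right _ _).trans (h (j + 1) hj))

variable {K V : Type} [Field K] [Fintype V] {t : V → K} {c : K}

theorem oneside2 (hc : ∀ i, t i ≠ c) (F : ℕ → V → Submodule K (V → K)) (J r w E : ℕ) (hr : 0 < r)
    (hE0 : 0 < E) (hE : E * r ^ J ≤ ∏ i ∈ range (J - 1), (r + i + 1))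
    (hF : ∀ j j', j ≤ j' → j' ≤ J → ∀ i, F j i ≤ F j' i)
    (hs : ∀ j < J, ∀ a k, finrank K (res (St (F j) (pw t) (a + 1)) k) ≤
      finrank K (F (j + 1) k ⊓ Um (F (j + 1)) t c a : Submodule K (V → K)))
    (hw : finrank K (Um (F J) t c r) ≤ w) (hJ : 0 < J) (κ : ℕ → V → K) :
    E * finrank K (St (F 0) (pw t) (r + J)) ≤ E * finrank K (St (F J) κ r) + w := by
  by_contra hn
  obtain ⟨δ, hδ⟩ : ∃ δ, finrank K (St (F 0) (pw t) (r + J)) = finrank K (St (F J) κ r) + δ :=
    Nat.exists_eq_add_of_le (Nat.le_of_mul_le_mul_left (by omega) hE0)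
  rw [hδ, mul_add] at hn
  have h0 := log_seq (fun j => finrank K (Um (F j) t c (r + J - j))) r δ J (fun j hj => by
    obtain ⟨a, ha⟩ : ∃ a, r + J - j = a + 1 := ⟨r + J - j - 1, by omega⟩
    have ha' : r + J - (j + 1) = a := by omega
    have h1 := rows (L := F j) hc (a + 1)
    have h2 := count (F (j + 1)) (Um (F (j + 1)) t c a) κ r
    have h3 := sum_le_sum fun k (_ : k ∈ univ) => hs j hj a k
    have h4 : finrank K (St (F 0) (pw t) (r + J)) ≤ finrank K (St (F j) (pw t) (a + 1)) :=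
      Submodule.finrank_mono (St_mono (hF 0 j (by omega) hj.le) (by omega))
    have h5 : finrank K (St (F (j + 1)) κ r) ≤ finrank K (St (F J) κ r) :=
      Submodule.finrank_mono (St_mono (hF _ _ hj le_rfl) le_rfl)
    change (r + J - j) * finrank K (Um (F j) t c (r + J - j)) + δ ≤
      r * finrank K (Um (F (j + 1)) t c (r + J - (j + 1)))
    rw [ha, ha']
    omega) (J - 1) (by omega)
  have e : ∏ i ∈ range (J - 1), (r + J - (i + 1)) = ∏ i ∈ range (J - 1), (r + i + 1) := by
    rw [← prod_range_reflect]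
    exact prod_congr rfl fun i hi => by have := mem_range.1 hi; omega
  rw [e, Nat.sub_add_cancel hJ] at h0
  change _ ≤ r ^ J * finrank K (Um (F J) t c (r + J - J)) at h0
  rw [Nat.add_sub_cancel] at h0
  have h1 := ((Nat.mul_le_mul_left δ hE).trans h0).trans (Nat.mul_le_mul_left _ hw)
  rw [← mul_assoc, mul_comm (r ^ J)] at h1
  have h2 := Nat.le_of_mul_le_mul_right h1 (pow_pos hr J)
  rw [mul_comm] at h2
  omega

variable {π : V → V → Prop} {κ κ' : ℕ → V → K}

/-- transposition -/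
def trp : (V → V → K) →ₗ[K] (V → V → K) where
  toFun M i j := M j i
  map_add' _ _ := rfl
  map_smul' _ _ := rfl

theorem log_trp (hπ : ∀ a b, π a b → π b a) {a b : ℕ} {M : V → V → K}
    (hM : M ∈ St (Rw π κ a) κ' b) : trp M ∈ St (Rw π κ' b) κ a :=
  ⟨fun i => ⟨fun j h => (hM.1 j).1 i fun h' => h (hπ _ _ h'), fun e he => by
    simpa [trp] using congrFun (hM.2 e he) i⟩, fun e he => funext fun j => by
      simpa [trp] using (hM.1 j).2 e he⟩

theorem log_mono {a b : ℕ} (h : b ≤ a) (i : V) : Rw π κ a i ≤ Rw π κ b i :=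
  fun _ hx => ⟨hx.1, fun e he => hx.2 e (he.trans_le h)⟩

theorem log_sk {a : ℕ} {M : V → V → K} (h : M ∈ Sk π κ a) :
    M ∈ St (Rw π κ a) κ a := ⟨h.2, fun e he => funext fun j => by
  have := (h.2 j).2 e he
  simp only [Finset.sum_apply, Pi.smul_apply, smul_eq_mul, Pi.zero_apply, h.1 j, mul_neg,
    sum_neg_distrib, this, neg_zero]⟩

variable [DecidableEq V]

theorem log_card (S : Finset V) (hS : ∀ a b, π a b → b ∈ S) (a b : ℕ) :
    finrank K (Um (Rw π κ b) t c a) ≤ S.card := by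
  rw [← Fintype.card_coe, ← Module.finrank_fintype_fun_eq_card K, ← finrank_top K (S → K)]
  refine fr_le _ _ (LinearMap.funLeft K K Subtype.val) (fun _ _ => trivial) ?_
  rintro _ ⟨M, hM, rfl⟩ h
  funext j
  by_cases hj : j ∈ S
  · exact congrFun h ⟨j, hj⟩
  · rw [ev_apply, Finset.sum_apply]
    exact sum_eq_zero fun i _ => by
      rw [Pi.smul_apply, (hM.1 i).1 j fun h => hj (hS _ _ h), smul_zero]

theorem log_step (ht : Function.Injective t) (σ : V → K ≃+* K)
    (s1 : ∀ k i, i ≠ k → σ k (t i) = t i) (s2 : ∀ k, σ k (t k) = c) (hirr : ∀ a, ¬ π a a)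
    (a b : ℕ) (k : V) : finrank K (res (St (Rw π (pw t) (b + 1)) (pw t) (a + 1)) k) ≤
      finrank K (Rw π (pw t) b k ⊓ Um (Rw π (pw t) b) t c a : Submodule K (V → K)) := by
  refine step (L := Rw π (pw t) (b + 1)) (L' := Rw π (pw t) b) ht k (σ k) (s1 k) (s2 k) (LinearMap.pi fun j => (t j - t k) • LinearMap.proj j)
    (Rw (fun i j => π i j ∧ j ≠ k) (pw t) b) (fun i x hx => ⟨fun j h => ?_, fun e he => ?_⟩)
    (fun x hx h => funext fun j => ?_) (fun i x hx => ⟨fun j h => ?_, fun e he => ?_⟩)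
    (fun i x hx => ⟨fun j h => hx.1 j fun h' => h h'.1, hx.2⟩) a
  · change (t j - t k) * x j = 0
    by_cases hj : j = k
    · rw [hj, sub_self, zero_mul]
    · rw [hx.1 j fun h' => h ⟨h', hj⟩, mul_zero]
  · have h1 := hx.2 (e + 1) (by omega)
    have h2 := hx.2 e (by omega)
    change ∑ j, pw t e j * ((t j - t k) * x j) = 0
    refine Eq.trans ?_ (show ∑ j, pw t (e + 1) j * x j - t k * ∑ j, pw t e j * x j = 0 by
      rw [h1, h2, mul_zero, sub_zero])
    rw [mul_sum, ← sum_sub_distrib]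
    exact sum_congr rfl fun j _ => by simp only [pw]; ring
  · by_cases hj : j = k
    · exact hx.1 j (hj ▸ hirr j)
    · exact (mul_eq_zero.1 (congrFun h j)).resolve_left (sub_ne_zero.2 fun h => hj (ht h))
  · rw [Function.comp_apply, hx.1 j h, map_zero]
  · rw [← map_zero (σ k), ← hx.2 e he, map_sum]
    refine sum_congr rfl fun j _ => ?_
    by_cases hj : j = k
    · simp [hx.1 j fun h => h.2 hj]
    · simp [pw, s1 k j hj]

theorem log_two [CharZero K] (ht : Function.Injective t) (a : ℕ) :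
    2 * finrank K (Sk π (pw t) (a + 1)) ≤ finrank K (St (Rw π (pw t) a) (pw t) a) := by
  let g : ((V → V → K) × (V → V → K)) →ₗ[K] (V → V → K) :=
    { toFun := fun x i j => x.1 i j + (t i - t j) * x.2 i j
      map_add' := fun _ _ => by
        ext i j
        simp only [Prod.fst_add, Prod.snd_add, Pi.add_apply]
        ring
      map_smul' := fun _ _ => by
        ext i j
        simp only [Prod.smul_fst, Prod.smul_snd, Pi.smul_apply, smul_eq_mul, RingHom.id_apply]
        ring }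
  have hg : ∀ M N i j, g (M, N) i j = M i j + (t i - t j) * N i j := fun _ _ _ _ => rfl
  have e : finrank K ((Sk π (pw t) (a + 1)).prod (Sk π (pw t) (a + 1))) =
      2 * finrank K (Sk π (pw t) (a + 1)) := by
    rw [two_mul, ← Module.finrank_prod]
    exact LinearEquiv.finrank_eq
      { toFun := fun x => (⟨x.1.1, x.2.1⟩, ⟨x.1.2, x.2.2⟩)
        map_add' := fun _ _ => rfl
        map_smul' := fun _ _ => rfl
        invFun := fun x => ⟨(x.1, x.2), x.1.2, x.2.2⟩
        left_inv := fun _ => rfl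
        right_inv := fun _ => rfl }
  rw [← e]
  refine fr_le _ _ g (fun ⟨M, N⟩ ⟨(hM : M ∈ Sk π (pw t) (a + 1)), (hN : N ∈ Sk π (pw t) (a + 1))⟩ => ?_)
    fun ⟨M, N⟩ ⟨(hM : M ∈ Sk π (pw t) (a + 1)), (hN : N ∈ Sk π (pw t) (a + 1))⟩ h => ?_
  · have key : ∀ i, ∀ e < a, ∑ j, pw t e j * ((t i - t j) * N i j) = 0 := fun i e he => by
      have h1 := (hN.2 i).2 (e + 1) (by omega)
      have h2 := (hN.2 i).2 e (by omega)
      refine Eq.trans ?_ (show t i * ∑ j, pw t e j * N i j - ∑ j, pw t (e + 1) j * N i j = 0 by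
        rw [h1, h2, mul_zero, sub_zero])
      rw [mul_sum, ← sum_sub_distrib]
      exact sum_congr rfl fun j _ => by simp only [pw]; ring
    refine ⟨fun i => ⟨fun j h => ?_, fun e he => ?_⟩, fun e he => funext fun j => ?_⟩
    · rw [hg, (hM.2 i).1 j h, (hN.2 i).1 j h, mul_zero, add_zero]
    · simp only [hg, mul_add, sum_add_distrib, key i e he, (hM.2 i).2 e (by omega), add_zero]
    · have h1 := congrFun ((log_sk hM).2 e (by omega)) j
      have h2 := key j e he
      simp only [Finset.sum_apply, Pi.smul_apply, smul_eq_mul, Pi.zero_apply] at h1 ⊢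
      simp only [hg, mul_add, sum_add_distrib, h1, zero_add]
      rw [← h2]
      exact sum_congr rfl fun i _ => by rw [hN.1 j i]; ring
  · have h1 : ∀ i j, M i j + (t i - t j) * N i j = 0 := fun i j => congrFun (congrFun h i) j
    have h2 : ∀ i j, M i j = 0 := fun i j => by
      have h3 := h1 j i
      rw [hM.1 i j, hN.1 i j] at h3
      linear_combination (1 / 2 : K) * (h1 i j - h3)
    refine Prod.ext (funext₂ h2) (funext₂ fun i j => ?_)
    by_cases hij : i = j
    · have := hN.1 i i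
      rw [← hij]
      change N i i = 0
      linear_combination (1 / 2 : K) * this
    · have := h1 i j
      rw [h2, zero_add] at this
      exact (mul_eq_zero.1 this).resolve_left (sub_ne_zero.2 fun h => hij (ht h))

theorem core2 [CharZero K] (t : V → K) (c : K) (ht : Function.Injective t) (hc : ∀ i, t i ≠ c)
    (κ : ℕ → V → K) (σ : V → K ≃+* K) (s1 : ∀ k i, i ≠ k → σ k (t i) = t i)
    (s2 : ∀ k, σ k (t k) = c) (s3 : ∀ k e i, σ k (κ e i) = κ e i) (r J D : ℕ) (hr : 0 < r)
    (hD : r + 3 * J + 2 ≤ D)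
    (hJ : ∀ x, 0 < x → x ≤ D → 5 * D * x ^ J ≤ ∏ i ∈ range (J - 1), (x + i + 1))
    (π : V → V → Prop) (hπ : ∀ a b, π a b → π b a) (hirr : ∀ a, ¬ π a a)
    (sym : ∀ M : V → V → K, (∀ a b, M b a = M a b) → (∀ a, M a ∈ Rw π κ r a) → M = 0)
    (semi : ∀ π' : V → V → Prop, finrank K (Sk π' κ D) ≤ finrank K (Sk π' (pw t) D)) :
    ∀ M ∈ Sk π (pw t) D, M = 0 := by
  classical
  intro M hM
  by_contra h0
  have hJ0 : 0 < J := Nat.pos_of_ne_zero fun h => by
    have := hJ 1 one_pos (by omega)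
    simp [h] at this
    omega
  obtain ⟨q, rfl⟩ : ∃ q, D = q + J + J + 1 := ⟨D - J - J - 1, by omega⟩
  let S := univ.filter fun i => M i ≠ 0
  let π' : V → V → Prop := fun a b => π a b ∧ a ∈ S ∧ b ∈ S
  have p1 : ∀ a b, π' a b → π' b a := fun a b h => ⟨hπ _ _ h.1, h.2.2, h.2.1⟩
  have p2 : ∀ a, ¬ π' a a := fun a h => hirr a h.1
  have p3 : ∀ a b, π' a b → b ∈ S := fun _ _ h => h.2.2
  have hM' : M ∈ Sk π' (pw t) (q + J + J + 1) := ⟨hM.1, fun i => ⟨fun j h => by
    by_contra e
    refine h ⟨by_contra fun h' => e ((hM.2 i).1 j h'), ?_, ?_⟩ <;>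
      refine mem_filter.2 ⟨mem_univ _, fun e' => e ?_⟩
    · rw [e']; rfl
    · rw [hM.1 j i, e']; exact neg_zero, (hM.2 i).2⟩⟩
  have hS : 0 < S.card := card_pos.2 (by
    obtain ⟨i, hi⟩ := Function.ne_iff.1 h0
    exact ⟨i, mem_filter.2 ⟨mem_univ _, hi⟩⟩)
  have a1 : S.card ≤ ∑ k, finrank K (res (St (Rw π' (pw t) (q + J + J + 1)) (pw t)
      (q + J + J + 1)) k) := by
    rw [card_eq_sum_ones]
    refine (sum_le_sum fun k hk => ?_).trans (sum_le_sum_of_subset (subset_univ S))
    exact Submodule.one_le_finrank_iff.2 ((Submodule.ne_bot_iff _).2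
      ⟨M k, ⟨M, log_sk hM', rfl⟩, (mem_filter.1 hk).2⟩)
  have a2 := sum_le_sum fun k (_ : k ∈ univ) =>
    log_step (c := c) ht σ s1 s2 p2 (q + J + J) (q + J + J) k
  have a3 := count (Rw π' (pw t) (q + J + J)) (Um (Rw π' (pw t) (q + J + J)) t c (q + J + J))
    (pw t) (q + J + J)
  have a4 := Nat.mul_le_mul_left (q + J + J) ((Nat.le_add_right _ _).trans
    (rn (L := Rw π' (pw t) (q + J + J)) hc (q + J + J)))
  have b1 := oneside2 hc (fun j => Rw π' (pw t) (q + J + J - j)) J (q + J) S.card _ (by omega)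
    (by omega) (hJ _ (by omega) (by omega)) (fun j j' h _ => log_mono (by omega))
    (fun j hj a k => by
      rw [show q + J + J - j = q + J + J - (j + 1) + 1 by omega]
      exact log_step ht σ s1 s2 p2 _ _ k) (log_card S p3 _ _) hJ0 κ
  change _ * finrank K (St (Rw π' (pw t) (q + J + J)) _ _) ≤
    _ * finrank K (St (Rw π' (pw t) (q + J + J - J)) _ _) + _ at b1
  rw [Nat.add_sub_cancel] at b1
  have b2 := fr_le (St (Rw π' (pw t) (q + J)) κ (q + J)) (St (Rw π' κ (q + J)) (pw t) (q + J)) trp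
    (fun M => log_trp p1) fun M _ h => funext₂ fun i j => congrFun (congrFun h j) i
  have b3 := oneside2 hc (fun _ => Rw π' κ (q + J)) J q S.card _ (by omega) (by omega)
    (hJ _ (by omega) (by omega)) (fun _ _ _ _ _ => le_rfl)
    (fun j _ a k => step ht k (σ k) (s1 k) (s2 k) LinearMap.id (Rw π' κ (q + J)) (fun _ _ h => h)
      (fun _ _ h => h)
      (fun i x hx => ⟨fun j h => by rw [Function.comp_apply, hx.1 j h, map_zero], fun e he => by
        rw [← map_zero (σ k), ← hx.2 e he, map_sum]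
        exact sum_congr rfl fun j _ => by rw [map_mul, s3]; rfl⟩) (fun _ => le_rfl) a)
    (log_card S p3 _ _) hJ0 fun e => if e < r then κ e else κ (e + (q + J - r))
  have b4 : St (Rw π' κ (q + J)) (fun e => if e < r then κ e else κ (e + (q + J - r))) q ≤
      Sk π' κ (q + J + J + 1) := fun N hN => by
    have hN' := (log_trp p1 hN).1
    have e1 := sym (N + trp N) (fun a b => add_comm _ _) fun a => add_mem
      ⟨fun j h => (hN.1 a).1 j fun h' => h h'.1, fun e he => (hN.1 a).2 e (by omega)⟩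
      ⟨fun j h => (hN' a).1 j fun h' => h h'.1, fun e he => by
        simpa only [if_pos he] using (hN' a).2 e (by omega)⟩
    have e2 : ∀ i j, N j i = -N i j := fun i j =>
      eq_neg_of_add_eq_zero_right (congrFun (congrFun e1 i) j)
    refine ⟨e2, fun i => ⟨(hN.1 i).1, fun e he => ?_⟩⟩
    by_cases h : e < q + J
    · exact (hN.1 i).2 e h
    · have e3 := (hN' i).2 (e - (q + J - r)) (by omega)
      simp only [if_neg (show ¬ e - (q + J - r) < r by omega),
        Nat.sub_add_cancel (show q + J - r ≤ e by omega)] at e3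
      rw [← neg_eq_zero, ← e3, ← sum_neg_distrib]
      exact sum_congr rfl fun j _ => by rw [← mul_neg, ← e2]; rfl
  have b5 := (Submodule.finrank_mono b4).trans (semi π')
  have b6 := log_two (π := π') ht (q + J + J)
  have c1 := Nat.mul_le_mul_left (5 * (q + J + J + 1)) b2
  have c2 := Nat.mul_le_mul_left (5 * (q + J + J + 1)) ((Nat.mul_le_mul_left 2 b5).trans b6)
  nlinarith

end Pool.Agent.Lib.MP_9087e4_co.Sh
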