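import Mathlib

/-! The choice of the length of the chains. -/

set_option autoImplicit false

namespace Pool.Agent.Lib.MP_9087e4_co.Sh

open Finset

theorem num_prod {D J x : ℕ} (hJ : J ≤ D) (hx : 0 < x) (hD : x ≤ D)
    (h : 2 * D * Real.logb 2 (5 * D ^ 2) ≤ J * (J - 1 : ℕ)) :
    5 * D * x ^ J ≤ ∏ i ∈ range (J - 1), (x + i + 1) := by
  have h0 : (0 : ℝ) < x := by exact_mod_cast hx
  have h1 : (x : ℝ) ≤ D := by exact_mod_cast hD
  have h2 : (0 : ℝ) < D := h0.trans_le h1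
  have h3 : (1 : ℝ) ≤ D := by exact_mod_cast hx.trans_le hD
  have h4 : 0 < Real.logb 2 (5 * (D : ℝ) ^ 2) := Real.logb_pos one_lt_two (by nlinarith)
  obtain ⟨m, rfl⟩ : ∃ m, J = m + 1 := Nat.exists_eq_succ_of_ne_zero fun e => by
    rw [e] at h
    have := mul_pos (mul_pos two_pos h2) h4
    simp at h
    linarith
  rw [Nat.add_sub_cancel] at h ⊢
  have h5 : ∀ i ∈ range m, (x : ℝ) * 2 ^ (((i : ℝ) + 1) / D) ≤ x + i + 1 := fun i hi => by
    have e : (i : ℝ) + 1 ≤ D := by exact_mod_cast (mem_range.1 hi).trans_le (by omega)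
    have e1 := rpow_one_add_le_one_add_mul_self (s := 1) (by norm_num)
      (p := ((i : ℝ) + 1) / D) (by positivity) ((div_le_one h2).2 e)
    rw [one_add_one_eq_two, mul_one] at e1
    refine (mul_le_mul_of_nonneg_left e1 h0.le).trans ?_
    rw [mul_add, mul_one, add_assoc, mul_div_assoc', add_le_add_iff_left, div_le_iff₀ h2, mul_comm]
    exact mul_le_mul_of_nonneg_left h1 (by positivity)
  have h6 := prod_le_prod (fun i _ => by positivity) h5
  rw [prod_mul_distrib, prod_const, card_range, ← Real.rpow_sum_of_pos two_pos] at h6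
  have h7 : ∀ m : ℕ, ∑ i ∈ range m, ((i : ℝ) + 1) / D = (m + 1) * m / (2 * D) := fun m => by
    induction m with
    | zero => simp
    | succ m ih => rw [sum_range_succ, ih]; push_cast; field_simp; ring
  have h8 : 5 * (D : ℝ) ^ 2 ≤ 2 ^ ∑ i ∈ range m, ((i : ℝ) + 1) / D := by
    rw [← Real.logb_le_iff_le_rpow one_lt_two (by positivity), h7, le_div_iff₀ (by positivity)]
    push_cast at h
    linarith
  have h9 : (5 * D * x ^ (m + 1) : ℝ) ≤ x ^ m * (5 * D ^ 2) := by
    rw [pow_succ]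
    have := mul_le_mul_of_nonneg_left h1 (show (0 : ℝ) ≤ 5 * D * x ^ m by positivity)
    nlinarith
  exact_mod_cast (h9.trans (mul_le_mul_of_nonneg_left h8 (by positivity))).trans h6

theorem num_len {d D : ℕ} (hd : 2 ≤ d) (hD : (d : ℝ) + 8 * √(D * Real.log D) ≤ D) :
    ∃ J : ℕ, d + 1 + 3 * J + 2 ≤ D ∧
      ∀ x, 0 < x → x ≤ D → 5 * D * x ^ J ≤ ∏ i ∈ range (J - 1), (x + i + 1) := by
  have h0 : (2 : ℝ) ≤ d := by exact_mod_cast hd
  have h1 := Real.sqrt_nonneg (D * Real.log D)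
  have h2 : (2 : ℝ) ≤ D := by linarith
  have l1 := Real.log_two_gt_d9
  have h3 : ∀ k : ℕ, (2 : ℝ) ^ k ≤ D → k * Real.log 2 ≤ Real.log D := fun k hk => by
    rw [← Real.log_pow]
    exact Real.log_le_log (by positivity) hk
  have h4 := h3 1 (by linarith)
  have h5 := Real.sq_sqrt (show (0 : ℝ) ≤ D * Real.log D by push_cast at h4; nlinarith)
  set s := √(D * Real.log D)
  set L := Real.log D
  have h6 : 64 * L ≤ D := by
    have : 64 * (D * L) ≤ D * D := by nlinarith
    nlinarith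
  have h7 := h3 5 (by push_cast at h4; linarith)
  have h8 := h3 7 (by push_cast at h7; linarith)
  have h9 := h3 8 (by push_cast at h8; linarith)
  push_cast at h9
  have a1 : Real.logb 2 (5 * (D : ℝ) ^ 2) ≤ 7 / 3 + 2.886 * L := by
    have e : 3 * Real.log 5 ≤ 7 * Real.log 2 := by
      have := Real.log_le_log (x := 5 ^ 3) (y := 2 ^ 7) (by norm_num) (by norm_num)
      simpa using this
    rw [Real.logb, Real.log_mul (by norm_num) (by positivity), Real.log_pow,
      div_le_iff₀ (by linarith)]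
    push_cast
    nlinarith
  have a0 : 0 ≤ Real.logb 2 (5 * (D : ℝ) ^ 2) := Real.logb_nonneg one_lt_two (by nlinarith)
  set y := 2 * D * Real.logb 2 (5 * (D : ℝ) ^ 2) with hy
  have a2 : √y ≤ 2.58 * s := Real.sqrt_le_iff.2 ⟨by positivity, by
    have : y ≤ 2 * D * (7 / 3 + 2.886 * L) := mul_le_mul_of_nonneg_left a1 (by positivity)
    nlinarith⟩
  have a3 : 35 ≤ s := by nlinarith
  have a4 := Nat.ceil_lt_add_one (Real.sqrt_nonneg y)
  have a5 : d + 1 + 3 * (⌈√y⌉₊ + 1) + 2 ≤ D := by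
    have : (d : ℝ) + 1 + 3 * (⌈√y⌉₊ + 1) + 2 ≤ D := by linarith
    exact_mod_cast this
  refine ⟨_, a5, fun x hx hx' => num_prod (by omega) hx hx' ?_⟩
  have a6 := Nat.le_ceil √y
  have a7 := Real.sq_sqrt (show 0 ≤ y by positivity)
  rw [Nat.add_sub_cancel]
  push_cast
  nlinarith [Real.sqrt_nonneg y]

end Pool.Agent.Lib.MP_9087e4_co.Sh
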