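import Pool.Agent.Lib.MP_9087e4_co.Sh.Dual

/-! The comparison with an additive error: the dimension of the stress space on the moment curve. -/

set_option autoImplicit false

namespace Pool.Agent.Lib.MP_9087e4_co.Sh

open Finset Module

variable {K V : Type} [Field K] [Fintype V] [DecidableEq V]

theorem core4 [CharZero K] (t : V → K) (c : K) (ht : Function.Injective t) (hc : ∀ i, t i ≠ c)
    (κ : ℕ → V → K) (σ : V → K ≃+* K) (s1 : ∀ k i, i ≠ k → σ k (t i) = t i)
    (s2 : ∀ k, σ k (t k) = c) (s3 : ∀ k e i, σ k (κ e i) = κ e i) (r J q : ℕ)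
    (hq : r + J + 1 ≤ q) (π : V → V → Prop) (p1 : ∀ a b, π a b → π b a) (p2 : ∀ a, ¬ π a a)
    (sym : ∀ M : V → V → K, (∀ a b, M b a = M a b) → (∀ a, M a ∈ Rw π κ r a) → M = 0)
    (semi : finrank K (Sk π κ (q + J + J + 1)) ≤ finrank K (Sk π (pw t) (q + J + J + 1)))
    (S : Finset V) (p3 : ∀ a b, π a b → b ∈ S) :
    J * finrank K (Sk π (pw t) (q + J + J + 1)) ≤ (q + J + q) * S.card := by
  have b1 := oneside hc (fun j => Rw π (pw t) (q + J + J - j)) J (q + J) S.card
    (fun j j' h _ => log_mono (by omega))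
    (fun j hj a k => by
      rw [show q + J + J - j = q + J + J - (j + 1) + 1 by omega]
      exact log_step ht σ s1 s2 p2 _ _ k) (log_card S p3 _ _) κ
  change _ * finrank K (St (Rw π (pw t) (q + J + J)) _ _) ≤
    _ * finrank K (St (Rw π (pw t) (q + J + J - J)) _ _) + _ at b1
  rw [Nat.add_sub_cancel] at b1
  have b2 := fr_le (St (Rw π (pw t) (q + J)) κ (q + J)) (St (Rw π κ (q + J)) (pw t) (q + J)) trp
    (fun M => log_trp p1) fun M _ h => funext₂ fun i j => congrFun (congrFun h j) i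
  have b3 := oneside hc (fun _ => Rw π κ (q + J)) J q S.card (fun _ _ _ _ _ => le_rfl)
    (fun j _ a k => step ht k (σ k) (s1 k) (s2 k) LinearMap.id (Rw π κ (q + J)) (fun _ _ h => h)
      (fun _ _ h => h)
      (fun i x hx => ⟨fun j h => by rw [Function.comp_apply, hx.1 j h, map_zero], fun e he => by
        rw [← map_zero (σ k), ← hx.2 e he, map_sum]
        exact sum_congr rfl fun j _ => by rw [map_mul, s3]; rfl⟩) (fun _ => le_rfl) a)
    (log_card S p3 _ _) fun e => if e < r then κ e else κ (e + (q + J - r))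
  have b4 : St (Rw π κ (q + J)) (fun e => if e < r then κ e else κ (e + (q + J - r))) q ≤
      Sk π κ (q + J + J + 1) := fun N hN => by
    have hN' := (log_trp p1 hN).1
    have e1 := sym (N + trp N) (fun a b => add_comm _ _) fun a => add_mem
      ⟨(hN.1 a).1, fun e he => (hN.1 a).2 e (by omega)⟩
      ⟨(hN' a).1, fun e he => by simpa only [if_pos he] using (hN' a).2 e (by omega)⟩
    have e2 : ∀ i j, N j i = -N i j := fun i j =>
      eq_neg_of_add_eq_zero_right (congrFun (congrFun e1 i) j)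
    refine ⟨e2, fun i => ⟨(hN.1 i).1, fun e he => ?_⟩⟩
    by_cases h : e < q + J
    · exact (hN.1 i).2 e h
    · have e3 := (hN' i).2 (e - (q + J - r)) (by omega)
      simp only [if_neg (show ¬ e - (q + J - r) < r by omega),
        Nat.sub_add_cancel (show q + J - r ≤ e by omega)] at e3
      rw [← neg_eq_zero, ← e3, ← sum_neg_distrib]
      exact sum_congr rfl fun j _ => by rw [← mul_neg, ← e2]; rfl
  have b5 := (Submodule.finrank_mono b4).trans semi
  have b6 := log_two (π := π) ht (q + J + J)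
  have c1 := Nat.mul_le_mul_left J b2
  have c2 := Nat.mul_le_mul_left J b5
  have c3 := Nat.mul_le_mul_left J b6
  nlinarith

/-- a non-zero row has more than `D` non-zero entries -/
theorem rk_deg {t : V → K} (ht : Function.Injective t) {π : V → V → Prop} {D : ℕ} {i : V}
    {x : V → K} (hx : x ∈ Rw π (pw t) D i) (h0 : x ≠ 0) (N : Finset V) (hN : ∀ j, j ∈ N ↔ π i j) :
    D + 1 ≤ N.card := by
  by_contra hn
  have h1 := vand (V := {j // j ∈ N}) (t := fun j => t j) (ht.comp Subtype.val_injective)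
    (fun j => x j) fun e he => by
      rw [Fintype.card_coe] at he
      rw [← hx.2 e (by omega), ← sum_subset (subset_univ N) fun j _ hj => by
        rw [hx.1 j fun h => hj ((hN j).2 h), mul_zero]]
      exact (sum_subtype N (fun _ => Iff.rfl) fun j => pw t e j * x j).symm
  refine h0 (funext fun j => ?_)
  by_cases hj : j ∈ N
  · exact congrFun h1 ⟨j, hj⟩
  · exact hx.1 j fun h => hj ((hN j).2 h)

theorem rk_hand (F : Finset (Sym2 V)) :
    ∑ i, (univ.filter fun j => s(i, j) ∈ F).card ≤ 2 * F.card := by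
  have h1 : ∑ i, (univ.filter fun j => s(i, j) ∈ F).card =
      (univ.filter fun x : V × V => s(x.1, x.2) ∈ F).card := by
    simp only [card_filter]
    rw [Fintype.sum_prod_type]
  rw [h1]
  refine card_le_mul_card_image_of_maps_to (f := fun x : V × V => s(x.1, x.2))
    (fun x hx => (mem_filter.1 hx).2) 2 fun e _ => ?_
  induction e using Sym2.ind with
  | _ a b =>
    refine (card_le_card (t := {(a, b), (b, a)}) fun x hx => ?_).trans card_le_two
    have := (mem_filter.1 hx).2
    rw [Sym2.eq_iff] at this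
    simp only [mem_insert, mem_singleton, Prod.ext_iff]
    exact this

/-- erasing one edge per dimension kills the stress space -/
theorem rk_erase (κ : ℕ → V → K) (D x : ℕ) : ∀ F : Finset (Sym2 V),
    finrank K (Sk (fun a b => s(a, b) ∈ F) κ D) ≤ x →
      ∃ F' ⊆ F, F.card ≤ F'.card + x ∧ ∀ M ∈ Sk (fun a b => s(a, b) ∈ F') κ D, M = 0 := by
  induction x with
  | zero =>
    intro F h
    rw [Nat.le_zero, Submodule.finrank_eq_zero] at h
    exact ⟨F, subset_rfl, le_rfl, (Submodule.eq_bot_iff _).1 h⟩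
  | succ x ih =>
    intro F h
    by_cases h0 : ∀ M ∈ Sk (fun a b => s(a, b) ∈ F) κ D, M = 0
    · exact ⟨F, subset_rfl, by omega, h0⟩
    push Not at h0
    obtain ⟨M, hM, h0⟩ := h0
    obtain ⟨a, ha⟩ := Function.ne_iff.1 h0
    obtain ⟨b, hb⟩ := Function.ne_iff.1 ha
    have h1 : Sk (fun u v => s(u, v) ∈ F.erase s(a, b)) κ D < Sk (fun u v => s(u, v) ∈ F) κ D :=
      lt_of_le_not_ge (fun N hN => ⟨hN.1, fun i => ⟨fun j hj => (hN.2 i).1 j fun h' =>
        hj (mem_of_mem_erase h'), (hN.2 i).2⟩⟩)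
        fun h' => hb (((h' hM).2 a).1 b (notMem_erase _ _))
    have h2 := Submodule.finrank_lt_finrank_of_lt h1
    obtain ⟨F', h3, h4, h5⟩ := ih (F.erase s(a, b)) (by omega)
    have h6 := pred_card_le_card_erase (s := F) (a := s(a, b))
    exact ⟨F', h3.trans (erase_subset _ _), by omega, h5⟩

theorem core5 [CharZero K] (t : V → K) (c : K) (ht : Function.Injective t) (hc : ∀ i, t i ≠ c)
    (κ : ℕ → V → K) (σ : V → K ≃+* K) (s1 : ∀ k i, i ≠ k → σ k (t i) = t i)
    (s2 : ∀ k, σ k (t k) = c) (s3 : ∀ k e i, σ k (κ e i) = κ e i) (r J q : ℕ)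
    (hq : r + J + 1 ≤ q) (F : Finset (Sym2 V)) (p2 : ∀ a, s(a, a) ∉ F)
    (sym : ∀ M : V → V → K, (∀ a b, M b a = M a b) →
      (∀ a, M a ∈ Rw (fun a b => s(a, b) ∈ F) κ r a) → M = 0)
    (semi : ∀ π : V → V → Prop,
      finrank K (Sk π κ (q + J + J + 1)) ≤ finrank K (Sk π (pw t) (q + J + J + 1))) :
    (q + J + J + 2) * (J * finrank K (Sk (fun a b => s(a, b) ∈ F) (pw t) (q + J + J + 1))) ≤
      (q + J + q) * (2 * F.card) := by
  classical
  let S := univ.filter fun i => ∃ M ∈ Sk (fun a b => s(a, b) ∈ F) (pw t) (q + J + J + 1), M i ≠ 0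
  let π : V → V → Prop := fun a b => s(a, b) ∈ F ∧ a ∈ S ∧ b ∈ S
  have h1 := core4 t c ht hc κ σ s1 s2 s3 r J q hq π
    (fun a b h => ⟨by rw [Sym2.eq_swap]; exact h.1, h.2.2, h.2.1⟩) (fun a h => p2 a h.1)
    (fun M h h' => sym M h fun a => ⟨fun j hj => (h' a).1 j fun e => hj e.1, (h' a).2⟩)
    (semi π) S fun _ _ h => h.2.2
  have h2 : Sk (fun a b => s(a, b) ∈ F) (pw t) (q + J + J + 1) ≤ Sk π (pw t) (q + J + J + 1) :=
    fun M hM => ⟨hM.1, fun i => ⟨fun j h => by
      by_contra e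
      refine h ⟨by_contra fun h' => e ((hM.2 i).1 j h'), ?_, ?_⟩ <;>
        refine mem_filter.2 ⟨mem_univ _, M, hM, fun e' => e ?_⟩
      · rw [e']; rfl
      · rw [hM.1 j i, e']; exact neg_zero, (hM.2 i).2⟩⟩
  have h3 : S.card * (q + J + J + 2) ≤ 2 * F.card := by
    refine le_trans ?_ (rk_hand F)
    rw [← smul_eq_mul, ← sum_const]
    refine (sum_le_sum fun i hi => ?_).trans (sum_le_sum_of_subset (subset_univ S))
    obtain ⟨M, hM, h0⟩ := (mem_filter.1 hi).2
    exact rk_deg ht (hM.2 i) h0 _ fun j => by simp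
  have h4 := (Nat.mul_le_mul_left J (Submodule.finrank_mono h2)).trans h1
  calc _ ≤ (q + J + J + 2) * ((q + J + q) * S.card) := Nat.mul_le_mul_left _ h4
    _ = (q + J + q) * (S.card * (q + J + J + 2)) := by ring
    _ ≤ _ := Nat.mul_le_mul_left _ h3

end Pool.Agent.Lib.MP_9087e4_co.Sh
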