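import Pool.Agent.Lib.MP_9087e4_co.Sh.Dual

/-! The comparison with an additive error measured by the codimension. -/

set_option autoImplicit false

namespace Pool.Agent.Lib.MP_9087e4_co.Sh

open Finset Module

variable {K V : Type} [Field K] [Fintype V] {t : V → K} {c : K} {L : V → Submodule K (V → K)}
variable [DecidableEq V]

omit [DecidableEq V] in
theorem window2 (hc : ∀ i, t i ≠ c) (S : V → ℕ → ℕ) (κ : ℕ → V → K) (r m p w η : ℕ)
    (hrow : ∀ k a, finrank K (res (St L (pw t) a) k) + finrank K (Um L t c (a + 1)) + S k (a + 1) ≤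
      finrank K (L k ⊓ Um L t c (a + 1) : Submodule K (V → K)) + S k a)
    (hS : ∀ k a, finrank K (St L (pw t) a) ≤ S k a)
    (hT : finrank K (St L κ r) + η ≤ finrank K (St L (pw t) (p + w))) (hg : r ≤ p + 1)
    (hm : Fintype.card V ≤ p + 1 + m) :
    w * η + Fintype.card V * finrank K (St L (pw t) p) ≤
      ∑ k, S k p + m * finrank K (Um L t c p) := by
  have key : ∀ i, i ≤ w → i * η +
      Fintype.card V * finrank K (St L (pw t) p) + ∑ k, S k (p + i) +
        m * finrank K (Um L t c (p + i)) ≤ ∑ k, S k p + m * finrank K (Um L t c p) +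
          Fintype.card V * finrank K (St L (pw t) (p + i)) := by
    intro i
    induction i with
    | zero => intro _; simp only [Nat.add_zero]; omega
    | succ i ih =>
      intro hi
      have a0 := ih (by omega)
      have a1 := sum_le_sum fun k (_ : k ∈ univ) => hrow k (p + i)
      simp only [sum_add_distrib, sum_const, card_univ, smul_eq_mul] at a1
      have a2 := rows (L := L) hc (p + i)
      have a3 := count L (Um L t c (p + i + 1)) κ r
      have a4 := rn (L := L) hc (p + i)
      have a5 := rn' (L := L) hc (p + i)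
      have a6 : finrank K (St L (pw t) (p + w)) ≤ finrank K (St L (pw t) (p + i + 1)) :=
        Submodule.finrank_mono (St_mono (fun _ => le_rfl) (by omega))
      have a8 : finrank K (Um L t c (p + i + 1)) ≤ finrank K (Um L t c (p + i)) :=
        Submodule.finrank_mono (Submodule.map_mono (St_mono (fun _ => le_rfl) (by omega)))
      rw [← add_assoc p]
      obtain ⟨δ, hδ⟩ := Nat.exists_eq_add_of_le a8
      have a9 : finrank K (St L (pw t) (p + i)) = finrank K (Um L t c (p + i + 1)) + δ +
          finrank K (St L (pw t) (p + i + 1)) := by omega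
      rw [a9, hδ] at a0 a2
      have b1 : Fintype.card V * δ ≤ (p + i + 1 + m) * δ := Nat.mul_le_mul_right _ (by omega)
      have b2 : r * finrank K (Um L t c (p + i + 1)) ≤
          (p + i + 1) * finrank K (Um L t c (p + i + 1)) := Nat.mul_le_mul_right _ (by omega)
      nlinarith
  have h1 := key w le_rfl
  have h2 := sum_le_sum fun k (_ : k ∈ univ) => hS k (p + w)
  simp only [sum_const, card_univ, smul_eq_mul] at h2
  omega

theorem two_sided2 {π : V → V → Prop} (hc : ∀ i, t i ≠ c) (ht : Function.Injective t)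
    (σ : V → K ≃+* K) (s1 : ∀ k i, i ≠ k → σ k (t i) = t i) (s2 : ∀ k, σ k (t k) = c)
    (hπ : ∀ a b, π a b → π b a) (hrefl : ∀ a, π a a) (κ : ℕ → V → K) (r m p w η : ℕ)
    (hT : finrank K (St (Rw π (pw t) (p + 1)) κ r) + η ≤
      finrank K (St (Rw π (pw t) (p + 1)) (pw t) (p + w))) (hg : r ≤ p + 1)
    (hm : Fintype.card V ≤ p + m) :
    w * η ≤
      2 * m * finrank K (Um (Rw π (pw t) p) t c p) := by
  let μ : V → (V → K) →ₗ[K] (V → K) := fun k =>
    LinearMap.pi fun j => (t j - t k) • LinearMap.proj j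
  let A : V → V → Submodule K (V → K) := fun k => Rw (fun i j => π i j ∧ j ≠ k) (pw t) p
  have hX : ∀ k i, Rw π (pw t) (p + 1) i ≤ Rw (fun _ _ => True) (pw t) (p + 1) k :=
    fun k i => rw_top i k
  have m1 : ∀ k i, ∀ x ∈ Rw π (pw t) (p + 1) i, μ k x ∈ A k i := fun k i x hx =>
    ⟨fun j h => by
      change (t j - t k) * x j = 0
      by_cases hj : j = k
      · rw [hj, sub_self, zero_mul]
      · rw [hx.1 j fun h' => h ⟨h', hj⟩, mul_zero], fun e he => by
      have h1 := hx.2 (e + 1) (by omega)
      have h2 := hx.2 e (by omega)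
      change ∑ j, pw t e j * ((t j - t k) * x j) = 0
      refine Eq.trans ?_ (show ∑ j, pw t (e + 1) j * x j - t k * ∑ j, pw t e j * x j = 0 by
        rw [h1, h2, mul_zero, sub_zero])
      rw [mul_sum, ← sum_sub_distrib]
      exact sum_congr rfl fun j _ => by simp only [pw]; ring⟩
  have m2 : ∀ k, ∀ x ∈ Rw (fun _ _ => True) (pw t) (p + 1) k, μ k x = 0 → x = 0 :=
    fun k x hx h => by
      have h1 : ∀ j, j ≠ k → x j = 0 := fun j hj =>
        (mul_eq_zero.1 (congrFun h j)).resolve_left (sub_ne_zero.2 fun h => hj (ht h))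
      have h2 := hx.2 0 (by omega)
      rw [sum_eq_single k (fun j _ hj => by rw [h1 j hj, mul_zero]) (by simp), pw, pow_zero,
        one_mul] at h2
      funext j
      by_cases hj : j = k
      · rw [hj]; exact h2
      · exact h1 j hj
  have h1 := window2 (L := Rw π (pw t) (p + 1)) hc (fun k a => finrank K (St (A k) (pw t) a)) κ r m
    p w η (fun k a => dual_row hc ht k (σ k) (s1 k) (s2 k) (A k)
      (fun i x hx => ⟨fun j h => by rw [Function.comp_apply, hx.1 j h, map_zero], fun e he => by
        rw [← map_zero (σ k), ← hx.2 e he, map_sum]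
        refine sum_congr rfl fun j _ => ?_
        by_cases hj : j = k
        · simp [hx.1 j fun h => h.2 hj]
        · simp [pw, s1 k j hj]⟩) (μ k) _ (m1 k) (hX k) (m2 k)
      (fun x hx h => ⟨fun j hj => (mul_eq_zero.1 (h.1 j fun h' => hj h'.1)).resolve_left
        (sub_ne_zero.2 fun h' => hj (ht h' ▸ hrefl j)), hx.2⟩) a)
    (fun k a => fr_le _ _ ((μ k).compLeft V) (fun M hM => comp_mem (μ k) (m1 k) hM)
      fun M hM h => funext fun i => m2 k _ (hX k i (hM.1 i)) (congrFun h i)) hT hg (by omega)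
  have h2 : ∀ k, finrank K (St (A k) (pw t) p) ≤
      finrank K (St (zr (Rw π (pw t) p) k) (pw t) p) := fun k =>
    fr_le _ _ trp (fun M hM => zr_mem.2 ⟨log_trp hπ
      ⟨fun i => ⟨fun j h => (hM.1 i).1 j fun h' => h h'.1, (hM.1 i).2⟩, hM.2⟩,
        funext fun i => (hM.1 i).1 k fun h => h.2 rfl⟩)
      fun M _ h => funext₂ fun i j => congrFun (congrFun h j) i
  have h3 := sum_le_sum fun k (_ : k ∈ univ) => h2 k
  have h4 := sum_congr (rfl : (univ : Finset V) = univ) fun k _ => zr_rank (Rw π (pw t) p) (pw t) k p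
  simp only [sum_add_distrib, sum_const, card_univ, smul_eq_mul] at h4
  have h5 := rows (L := Rw π (pw t) p) hc p
  have h6 := rn' (L := Rw π (pw t) p) hc p
  have h7 := fr_le (St (Rw π (pw t) p) (pw t) (p + 1)) (St (Rw π (pw t) (p + 1)) (pw t) p) trp
    (fun M => log_trp hπ) fun M _ h => funext₂ fun i j => congrFun (congrFun h j) i
  have h8 : finrank K (Um (Rw π (pw t) (p + 1)) t c p) ≤ finrank K (Um (Rw π (pw t) p) t c p) :=
    Submodule.finrank_mono (Submodule.map_mono (St_mono (log_mono (by omega)) le_rfl))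
  have c1 := Nat.mul_le_mul_left (Fintype.card V) (h6.trans (Nat.add_le_add_left h7 _))
  have c2 := Nat.mul_le_mul_right (finrank K (Um (Rw π (pw t) p) t c p)) hm
  have c3 := Nat.mul_le_mul_left m h8
  nlinarith

theorem core6 [CharZero K] (t : V → K) (c : K) (ht : Function.Injective t) (hc : ∀ i, t i ≠ c)
    (κ : ℕ → V → K) (σ : V → K ≃+* K) (s1 : ∀ k i, i ≠ k → σ k (t i) = t i)
    (s2 : ∀ k, σ k (t k) = c) (s3 : ∀ k e i, σ k (κ e i) = κ e i) (r m v q : ℕ)
    (hm : Fintype.card V ≤ q + m) (hq : r + (v + 1) ≤ q) (k : V)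
    (π : V → V → Prop) (hπ : ∀ a b, π a b → π b a) (hrefl : ∀ a, π a a)
    (sym : ∀ M : V → V → K, (∀ a b, M b a = M a b) → (∀ a, M a ∈ Rw π κ r a) → M = 0)
    (semi : finrank K (Sk π κ (q + v + (v + 1) + 1)) ≤ finrank K (Sk π (pw t) (q + v + (v + 1) + 1)))
    (semi2 : ∀ b, finrank K (St (Rw (fun _ _ => True) κ b) (pw t) 0) ≤
      finrank K (St (Rw (fun _ _ => True) (pw t) b) (pw t) 0)) :
    (v + 1) * finrank K (Sk π (pw t) (q + v + (v + 1) + 1)) ≤ 3 * (m * m) := by
  have hn : 0 < Fintype.card V := Fintype.card_pos_iff.2 ⟨k⟩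
  have b3 : (v + 1) * finrank K (St (Rw π κ (q + v + 1)) (pw t) (q + (v + 1))) ≤ (v + 1) * finrank K
      (St (Rw π κ (q + v + 1)) (fun e => if e < r then κ e else κ (e + (q + v + 1 - r))) q) +
        m * m := by
    rcases le_total (finrank K (St (Rw π κ (q + v + 1)) (pw t) (q + (v + 1)))) (finrank K
      (St (Rw π κ (q + v + 1)) (fun e => if e < r then κ e else κ (e + (q + v + 1 - r))) q)) with
      hT | hT
    · exact (Nat.mul_le_mul_left _ hT).trans (Nat.le_add_right _ _)
    obtain ⟨η, hη⟩ := Nat.exists_eq_add_of_le hT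
    have h1 := window2 (L := Rw π κ (q + v + 1)) hc
      (fun _ a => finrank K (St (Rw π κ (q + v + 1)) (pw t) a))
      (fun e => if e < r then κ e else κ (e + (q + v + 1 - r))) q m q (v + 1) η
      (fun k a => dual_row hc ht k (σ k) (s1 k) (s2 k) (Rw π κ (q + v + 1))
        (fun i x hx => ⟨fun j h => by rw [Function.comp_apply, hx.1 j h, map_zero],
          fun e he => by
            rw [← map_zero (σ k), ← hx.2 e he, map_sum]
            exact sum_congr rfl fun j _ => by rw [map_mul, s3]; rfl⟩) LinearMap.id ⊤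
        (fun _ _ h => h) (fun _ => le_top) (fun _ _ h => h) (fun _ _ h => h) a)
      (fun _ _ => le_rfl) hη.ge (by omega) (by omega)
    simp only [sum_const, card_univ, smul_eq_mul] at h1
    have h2 : finrank K (Um (Rw π κ (q + v + 1)) t c q) ≤
        finrank K (Rw (fun _ _ => True) κ (q + v + 1) k) :=
      Submodule.finrank_mono (um_le (fun i => rw_top i k) _)
    have h3 := semi2 (q + v + 1)
    rw [st_zero _ _ _ k, st_zero _ _ _ k] at h3
    have h4 := Nat.le_of_mul_le_mul_left h3 hn
    have h5 := Nat.mul_le_mul_left m ((h2.trans h4).trans (top_le ht (q + v + 1) m (by omega) k))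
    rw [hη, mul_add]
    omega
  have b4 : St (Rw π κ (q + v + 1)) (fun e => if e < r then κ e else κ (e + (q + v + 1 - r))) q ≤
      Sk π κ (q + v + (v + 1) + 1) := fun N hN => by
    have hN' := (log_trp hπ hN).1
    have e1 := sym (N + trp N) (fun a b => add_comm _ _) fun a => add_mem
      ⟨(hN.1 a).1, fun e he => (hN.1 a).2 e (by omega)⟩
      ⟨(hN' a).1, fun e he => by simpa only [if_pos he] using (hN' a).2 e (by omega)⟩
    have e2 : ∀ i j, N j i = -N i j := fun i j =>
      eq_neg_of_add_eq_zero_right (congrFun (congrFun e1 i) j)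
    refine ⟨e2, fun i => ⟨(hN.1 i).1, fun e he => ?_⟩⟩
    by_cases h : e < q + v + 1
    · exact (hN.1 i).2 e h
    · have e3 := (hN' i).2 (e - (q + v + 1 - r)) (by omega)
      simp only [if_neg (show ¬ e - (q + v + 1 - r) < r by omega),
        Nat.sub_add_cancel (show q + v + 1 - r ≤ e by omega)] at e3
      rw [← neg_eq_zero, ← e3, ← sum_neg_distrib]
      exact sum_congr rfl fun j _ => by rw [← mul_neg, ← e2]; rfl
  have b5 := (Submodule.finrank_mono b4).trans semi
  have b6 := log_two (π := π) ht (q + v + (v + 1))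
  have b2 := fr_le (St (Rw π (pw t) (q + v + 1)) κ (q + (v + 1)))
    (St (Rw π κ (q + v + 1)) (pw t) (q + (v + 1)))
    trp (fun M => log_trp hπ) fun M _ h => funext₂ fun i j => congrFun (congrFun h j) i
  have b1 : (v + 1) * finrank K (St (Rw π (pw t) (q + v + 1)) (pw t) (q + v + (v + 1))) ≤
      (v + 1) * finrank K (St (Rw π (pw t) (q + v + 1)) κ (q + (v + 1))) + 2 * (m * m) := by
    rcases le_total (finrank K (St (Rw π (pw t) (q + v + 1)) (pw t) (q + v + (v + 1))))
      (finrank K (St (Rw π (pw t) (q + v + 1)) κ (q + (v + 1)))) with hT | hT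
    · exact (Nat.mul_le_mul_left _ hT).trans (Nat.le_add_right _ _)
    obtain ⟨η, hη⟩ := Nat.exists_eq_add_of_le hT
    have h1 := two_sided2 hc ht σ s1 s2 hπ hrefl κ (q + (v + 1)) m (q + v) (v + 1) η hη.ge
      (by omega) (by omega)
    have h2 : finrank K (Um (Rw π (pw t) (q + v)) t c (q + v)) ≤
        finrank K (Rw (fun _ _ => True) (pw t) (q + v) k) :=
      Submodule.finrank_mono (um_le (fun i => rw_top i k) _)
    have h3 := Nat.mul_le_mul_left (2 * m) (h2.trans (top_le ht (q + v) m (by omega) k))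
    rw [hη, mul_add, ← mul_assoc]
    omega
  have b0 : finrank K (St (Rw π (pw t) (q + v + (v + 1))) (pw t) (q + v + (v + 1))) ≤
      finrank K (St (Rw π (pw t) (q + v + 1)) (pw t) (q + v + (v + 1))) :=
    Submodule.finrank_mono (St_mono (log_mono (by omega)) le_rfl)
  have c1 := Nat.mul_le_mul_left (v + 1) (b6.trans b0)
  have c2 := Nat.mul_le_mul_left (v + 1) b2
  have c3 := Nat.mul_le_mul_left (v + 1) b5
  rw [mul_left_comm] at c1
  omega

omit [DecidableEq V] in
theorem rk_down {π : V → V → Prop} (ht : Function.Injective t) (a m : ℕ)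
    (hm : Fintype.card V ≤ a + m) (k : V) (s : ℕ) :
    finrank K (Sk π (pw t) a) ≤ finrank K (Sk π (pw t) (a + s)) + s * m := by
  induction s with
  | zero => simp
  | succ s ih =>
    let f : (V → V → K) →ₗ[K] (V → K) :=
      { toFun := fun M i => ∑ j, pw t (a + s) j * M i j
        map_add' := fun _ _ => funext fun _ => by simp [mul_add, sum_add_distrib]
        map_smul' := fun _ _ => funext fun _ => by simp [mul_sum, mul_left_comm] }
    have hf : ∀ M i, f M i = ∑ j, pw t (a + s) j * M i j := fun _ _ => rfl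
    have h1 := fr_ker (Sk π (pw t) (a + s)) f
    have h2 : (Sk π (pw t) (a + s)).map f ≤ Rw (fun _ _ => True) (pw t) (a + s) k := by
      rintro _ ⟨M, hM, rfl⟩
      refine ⟨fun _ h => absurd trivial h, fun e he => ?_⟩
      simp only [hf, mul_sum]
      rw [sum_comm]
      refine sum_eq_zero fun j _ => ?_
      have h3 := congrFun ((log_sk hM).2 e he) j
      simp only [Finset.sum_apply, Pi.smul_apply, smul_eq_mul, Pi.zero_apply] at h3
      simp only [mul_left_comm (pw t e _), ← mul_sum, h3, mul_zero]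
    have h3 : Sk π (pw t) (a + s) ⊓ LinearMap.ker f ≤ Sk π (pw t) (a + s + 1) := fun M hM =>
      ⟨hM.1.1, fun i => ⟨(hM.1.2 i).1, fun e he => by
        rcases Nat.lt_succ_iff_lt_or_eq.1 he with h | rfl
        · exact (hM.1.2 i).2 e h
        · rw [← hf, LinearMap.mem_ker.1 hM.2]; rfl⟩⟩
    have h4 := (Submodule.finrank_mono h2).trans (top_le ht (a + s) m (by omega) k)
    have h5 := Submodule.finrank_mono h3
    rw [← add_assoc, add_mul]
    omega

end Pool.Agent.Lib.MP_9087e4_co.Sh
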