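import Pool.Agent.Lib.MP_9087e4_co.Sh.RkProj
import Pool.Agent.Lib.MP_9087e4_co.Sh.RkDual
import Pool.Agent.Lib.MP_9087e4_co.Sh.DualGen

/-! The rank comparison measured by the codimension. -/

set_option autoImplicit false

namespace Pool.Agent.Lib.MP_9087e4_co.Sh

open Finset Module Pool.Agent.Lib.MP_9087e4_co.Mx Pool.Agent.Lib.MP_9087e4_co.Mz

variable {V : Type} [Fintype V] [LinearOrder V]

theorem rk_real2 (d m : ℕ) (hd : 0 < d) (hm : Fintype.card V ≤ d + m) (F : Finset (Sym2 V))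
    (hF : ∀ e ∈ F, ¬ e.IsDiag) (h : RInd d F) :
    ∃ F' ⊆ F, (F.card : ℝ) ≤ F'.card + 7 * (m * √m) ∧ GInd (d - 1) F' := by
  rcases F.eq_empty_or_nonempty with rfl | ⟨e, -⟩
  · exact ⟨∅, subset_rfl, le_add_of_nonneg_right (by positivity), fun _ => 0, ind_empty⟩
  have k : V := e.inf
  have key : (finrank (KK V) (Sk (fun a b => s(a, b) ∈ F) (pw (tK : V → KK V)) d) : ℝ) ≤
      7 * (m * √m) := by
    have h0 : (0 : ℝ) ≤ m := Nat.cast_nonneg m
    have h1 := Real.sqrt_nonneg (m : ℝ)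
    have h2 := Real.mul_self_sqrt h0
    by_cases h3 : √(m : ℝ) ≤ 7
    · have h4 := rk_down (π := fun a b => s(a, b) ∈ F) tK_inj d m hm k m
      rw [(Submodule.eq_bot_iff _).2 (sk_small tK_inj (d + m) (by omega)), finrank_bot,
        zero_add] at h4
      have h5 : (finrank (KK V) (Sk (fun a b => s(a, b) ∈ F) (pw (tK : V → KK V)) d) : ℝ) ≤
        m * m := by exact_mod_cast h4
      nlinarith [mul_nonneg h0 h1]
    push Not at h3
    have h4 := Nat.ceil_lt_add_one h1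
    have h5 := Nat.le_ceil √(m : ℝ)
    obtain ⟨v, hv⟩ : ∃ v, ⌈√(m : ℝ)⌉₊ = v + 1 :=
      Nat.exists_eq_succ_of_ne_zero (Nat.ceil_pos.2 (by linarith)).ne'
    rw [hv] at h4 h5
    have a1 := core6 tK (cK V) tK_inj tK_ne kK sw sw_1 sw_2 sw_3 (d + 1) m v (d + 1 + (v + 1))
      (by omega) le_rfl k (fun a b => s(a, b) ∈ F ∨ a = b)
      (fun a b h => h.imp (fun h => by rwa [Sym2.eq_swap]) Eq.symm) (fun _ => Or.inr rfl)
      (sym_gen' hF h) (semi_Sk _ _) fun b => semi_row _ b 0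
    have a2 := rk_down (π := fun a b => s(a, b) ∈ F) tK_inj d m hm k (3 * (v + 1) + 1)
    have a3 : finrank (KK V) (Sk (fun a b => s(a, b) ∈ F) (pw (tK : V → KK V))
        (d + (3 * (v + 1) + 1))) ≤ finrank (KK V) (Sk (fun a b => s(a, b) ∈ F ∨ a = b)
          (pw (tK : V → KK V)) (d + 1 + (v + 1) + v + (v + 1) + 1)) :=
      Submodule.finrank_mono fun M hM => ⟨hM.1, fun i =>
        ⟨fun j hj => (hM.2 i).1 j fun h' => hj (Or.inl h'), fun e he => (hM.2 i).2 e (by omega)⟩⟩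
    have a4 := (Nat.mul_le_mul_left (v + 1) a3).trans a1
    generalize finrank (KK V) (Sk (fun a b => s(a, b) ∈ F) (pw (tK : V → KK V))
      (d + (3 * (v + 1) + 1))) = y at a2 a4
    generalize finrank (KK V) (Sk (fun a b => s(a, b) ∈ F) (pw (tK : V → KK V)) d) = x at a2 ⊢
    generalize v + 1 = w at a2 a4 h4 h5
    have b2 : (x : ℝ) ≤ y + (3 * w + 1) * m := by exact_mod_cast a2
    have b4 : (w : ℝ) * y ≤ 3 * (m * m) := by exact_mod_cast a4
    generalize √(m : ℝ) = s at *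
    have b5 : s * y ≤ s * (3 * (m * s)) := by
      have := mul_le_mul_of_nonneg_right h5 (Nat.cast_nonneg y : (0 : ℝ) ≤ y)
      have e1 : s * (3 * (m * s)) = 3 * (m * (s * s)) := by ring
      rw [e1, h2]
      linarith
    have b6 := le_of_mul_le_mul_left b5 (by linarith)
    nlinarith
  obtain ⟨F', h1, h2, h3⟩ := rk_erase (pw (tK : V → KK V)) d _ F le_rfl
  refine ⟨F', h1, ?_, ret _ (fun e he => hF e (h1 he)) ?_⟩
  · have := (Nat.cast_le (α := ℝ)).2 h2
    rw [Nat.cast_add] at this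
    linarith
  · rwa [Nat.sub_add_cancel hd]

end Pool.Agent.Lib.MP_9087e4_co.Sh
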