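import Pool.Agent.Lib.MP_9087e4_co.Sh.RkCore
import Pool.Agent.Lib.MP_9087e4_co.Sh.Env

/-! Forgetting coordinates keeps a proportional part of an independent set; the rank comparison. -/

set_option autoImplicit false

namespace Pool.Agent.Lib.MP_9087e4_co.Sh

open Finset Module Pool.Agent.Lib.MP_9087e4_co.Mx Pool.Agent.Lib.MP_9087e4_co.Mz

theorem rk_basis {ι X : Type} [AddCommGroup X] [Module ℝ X] (r : ι → X) (F : Finset ι) :
    ∃ F' ⊆ F, Ind r F' ∧ finrank ℝ (sp r F) ≤ F'.card := by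
  classical
  obtain ⟨b, h1, -, h2, h3⟩ := exists_linearIndepOn_extension
    (linearIndepOn_empty ℝ r) (Set.empty_subset (F : Set ι))
  lift b to Finset ι using F.finite_toSet.subset h1
  refine ⟨b, by exact_mod_cast h1, h3, ?_⟩
  have h4 : sp r F ≤ Submodule.span ℝ ((b.image r : Finset X) : Set X) := by
    rw [coe_image]
    exact Submodule.span_le.2 h2
  exact ((Submodule.finrank_mono h4).trans (finrank_span_finset_le_card _)).trans card_image_le

theorem rk_card {ι X : Type} [AddCommGroup X] [Module ℝ X] {r : ι → X} {F : Finset ι}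
    (h : Ind r F) : finrank ℝ (sp r F) = F.card := by
  have h1 := finrank_span_eq_card (R := ℝ) (b := fun e : (F : Set ι) => r e) h
  rw [← Set.image_eq_range] at h1
  rw [sp, h1]
  simp

variable {V : Type} [Fintype V] [LinearOrder V]

theorem rk_one {d : ℕ} {F : Finset (Sym2 V)} (h : RInd (d + 1) F) :
    ∃ F' ⊆ F, d * F.card ≤ (d + 1) * F'.card ∧ RInd d F' := by
  obtain ⟨p, hp⟩ := h
  let ρ : Fin (d + 1) → (V × Fin (d + 1) → ℝ) →ₗ[ℝ] (V × Fin d → ℝ) := fun l =>
    LinearMap.funLeft ℝ ℝ fun x => (x.1, l.succAbove x.2)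
  let U := sp (rigRow p) F
  let N : Fin (d + 1) → Submodule ℝ (V × Fin (d + 1) → ℝ) := fun l => U ⊓ LinearMap.ker (ρ l)
  have h1 : ∑ l, finrank ℝ (N l) ≤ F.card := by
    rw [← fr_pi, ← rk_card hp]
    refine fr_le _ _ (∑ l, LinearMap.proj l) (fun x hx => ?_) fun x hx h0 => ?_
    · rw [LinearMap.sum_apply]
      exact sum_mem fun l _ => (hx l trivial).1
    · have h2 : ∀ l v l', l' ≠ l → x l (v, l') = 0 := fun l v l' h => by
        obtain ⟨j, rfl⟩ := Fin.exists_succAbove_eq h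
        exact congrFun (LinearMap.mem_ker.1 (hx l trivial).2) (v, j)
      funext l ⟨v, l'⟩
      by_cases h : l' = l
      · subst h
        have h3 := congrFun h0 (v, l')
        rw [LinearMap.sum_apply, Finset.sum_apply] at h3
        exact (sum_eq_single (f := fun l => x l (v, l')) l'
          (fun l _ h => h2 l v l' h.symm) fun h => absurd (mem_univ _) h).symm.trans h3
      · exact h2 l v l' h
  obtain ⟨l, hl⟩ : ∃ l, (d + 1) * finrank ℝ (N l) ≤ F.card := by
    by_contra hn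
    push Not at hn
    have h2 := sum_le_sum fun l (_ : l ∈ univ) => Nat.succ_le_of_lt (hn l)
    rw [← mul_sum, sum_const, card_univ, Fintype.card_fin, smul_eq_mul] at h2
    have := Nat.le_of_mul_le_mul_left h2 (Nat.succ_pos d)
    omega
  have h2 := fr_ker U (ρ l)
  have h3 : U.map (ρ l) = sp (rigRow fun v => p v ∘ l.succAbove) F := by
    simp only [U, sp, Submodule.map_span, Set.image_image]
    congr 2
    funext e
    induction e using Sym2.ind with
    | _ a b => rfl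
  obtain ⟨F', h4, h5, h6⟩ := rk_basis (rigRow fun v => p v ∘ l.succAbove) F
  rw [h3, rk_card hp] at h2
  refine ⟨F', h4, ?_, _, h5⟩
  change finrank ℝ _ + finrank ℝ (N l) = _ at h2
  nlinarith

theorem rk_proj (d s : ℕ) : ∀ F : Finset (Sym2 V), RInd (d + s) F →
    ∃ F' ⊆ F, d * F.card ≤ (d + s) * F'.card ∧ RInd d F' := by
  induction s with
  | zero => exact fun F h => ⟨F, subset_rfl, le_rfl, h⟩
  | succ s ih =>
    intro F h
    obtain ⟨F1, h1, h2, h3⟩ := rk_one (d := d + s) h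
    obtain ⟨F2, h4, h5, h6⟩ := ih F1 h3
    refine ⟨F2, h4.trans h1, ?_, h6⟩
    rcases Nat.eq_zero_or_pos d with rfl | hd
    · simp
    refine Nat.le_of_mul_le_mul_left ?_ (show 0 < d + s by omega)
    calc _ = d * ((d + s) * F.card) := by ring
      _ ≤ d * ((d + s + 1) * F1.card) := Nat.mul_le_mul_left _ h2
      _ = (d + s + 1) * (d * F1.card) := by ring
      _ ≤ (d + s + 1) * ((d + s) * F2.card) := Nat.mul_le_mul_left _ h5
      _ = _ := by ring

theorem rk_nat (e J : ℕ) (F : Finset (Sym2 V)) (hF : ∀ e ∈ F, ¬ e.IsDiag)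
    (h : RInd (e + (3 * J + 3)) F) : ∃ F' ⊆ F, ∃ y x : ℕ, e * F.card ≤ (e + (3 * J + 3)) * y ∧
      y ≤ F.card ∧ y ≤ F'.card + x ∧ (e + 3 * J + 4) * (J * x) ≤ (2 * e + 3 * J + 4) * (2 * y) ∧
      GInd (e + (3 * J + 3) - 1) F' := by
  obtain ⟨F1, h1, h2, h3⟩ := rk_proj e _ F h
  have hF1 : ∀ e ∈ F1, ¬ e.IsDiag := fun e he => hF e (h1 he)
  have h4 := core5 tK (cK V) tK_inj tK_ne kK sw sw_1 sw_2 sw_3 (e + 1) J (e + J + 2) (by omega) F1
    (fun a h => spec_ne hF1 h rfl) (sym_gen hF1 h3) fun π => semi_Sk π _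
  obtain ⟨F2, h5, h6, h7⟩ := rk_erase (pw (tK : V → KK V)) (e + J + 2 + J + J + 1) _ F1 le_rfl
  refine ⟨F2, h5.trans h1, _, _, h2, card_le_card h1, h6, ?_, ret _ (fun e he => hF1 e (h5 he)) ?_⟩
  · convert h4 using 2 <;> ring
  · rwa [show e + (3 * J + 3) - 1 + 1 = e + J + 2 + J + J + 1 by omega]

theorem rk_real (d : ℕ) (hd : 0 < d) (F : Finset (Sym2 V)) (hF : ∀ e ∈ F, ¬ e.IsDiag)
    (h : RInd d F) : ∃ F' ⊆ F, (1 - 7 / √d) * F.card ≤ F'.card ∧ GInd (d - 1) F' := by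
  have h0 : (0 : ℝ) < d := by exact_mod_cast hd
  have h1 := Real.sqrt_pos.2 h0
  have h2 := Real.mul_self_sqrt h0.le
  by_cases h3 : √(d : ℝ) ≤ 7
  · refine ⟨∅, empty_subset _, ?_, fun _ => 0, ind_empty⟩
    have : 1 ≤ 7 / √(d : ℝ) := (one_le_div h1).2 h3
    rw [card_empty, Nat.cast_zero]
    exact mul_nonpos_of_nonpos_of_nonneg (by linarith) (by positivity)
  push Not at h3
  have h4 := Nat.ceil_lt_add_one h1.le
  have h5 := Nat.le_ceil √(d : ℝ)
  generalize ⌈√(d : ℝ)⌉₊ = J at h4 h5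
  obtain ⟨e, rfl⟩ : ∃ e, d = e + (3 * J + 3) := Nat.exists_eq_add_of_le' (by
    have : (3 * J + 3 : ℝ) ≤ d := by nlinarith
    exact_mod_cast this)
  obtain ⟨F', a1, y, x, a2, a3, a4, a5, a6⟩ := rk_nat e J F hF h
  refine ⟨F', a1, ?_, a6⟩
  have b2 : (e : ℝ) * F.card ≤ (e + (3 * J + 3)) * y := by exact_mod_cast a2
  have b3 : (y : ℝ) ≤ F.card := by exact_mod_cast a3
  have b4 : (y : ℝ) ≤ F'.card + x := by exact_mod_cast a4
  have b5 : ((e : ℝ) + 3 * J + 4) * (J * x) ≤ (2 * e + 3 * J + 4) * (2 * y) := by exact_mod_cast a5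
  generalize √((e + (3 * J + 3) : ℕ) : ℝ) = s at *
  push_cast at h0 h2
  have e0 : (0 : ℝ) ≤ e := Nat.cast_nonneg e
  have f0 : (0 : ℝ) ≤ F.card := Nat.cast_nonneg _
  generalize (F.card : ℝ) = f at *
  generalize (F'.card : ℝ) = g at *
  obtain ⟨D, hD⟩ : ∃ D : ℝ, D = s * s := ⟨_, rfl⟩
  have he : (e : ℝ) = D - 3 * J - 3 := by linarith
  rw [he] at b2 b5 e0
  have c1 : D * (f - y) ≤ (3 * s + 6) * f := by nlinarith
  have c2 : (4 * D - 6 * J - 4) * D ≤ (4 * s - 6) * ((D + 1) * J) := by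
    have : D * (D + 1) ≤ s * J * (D + 1) :=
      mul_le_mul_of_nonneg_right (by nlinarith) (by linarith)
    nlinarith
  have c3 : (D + 1) * J * (D * x) ≤ (D + 1) * J * ((4 * s - 6) * f) := by
    have u1 : (D + 1) * J * x ≤ (4 * D - 6 * J - 4) * f := by
      have := mul_le_mul_of_nonneg_left b3 (show 0 ≤ 4 * D - 6 * J - 4 by linarith)
      linarith
    have u2 := mul_le_mul_of_nonneg_left u1 (show 0 ≤ D by linarith)
    have u3 := mul_le_mul_of_nonneg_right c2 f0
    linarith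
  have c4 := le_of_mul_le_mul_left c3 (mul_pos (by linarith) (by linarith))
  have c5 : s * (s * (f - g)) ≤ s * (7 * f) := by
    have := mul_le_mul_of_nonneg_left b4 (show 0 ≤ D by linarith)
    rw [hD] at c1 c4 this
    linarith
  have c6 := le_of_mul_le_mul_left c5 h1
  rw [sub_mul, one_mul, sub_le_comm, div_mul_eq_mul_div, le_div_iff₀ h1]
  linarith

end Pool.Agent.Lib.MP_9087e4_co.Sh
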