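import Pool.Agent.Lib.MP_9087e4_co.Sh.Defs

/-! Semicontinuity of the dimension of the solution space under specialisation. -/

set_option autoImplicit false

namespace Pool.Agent.Lib.MP_9087e4_co.Sh

open Finset Module Matrix

section Rank

variable {A K K' m n : Type} [CommRing A] [Field K] [Field K'] [Fintype m] [Fintype n]

theorem ex_rows (B : Matrix m n K) (ρ : ℕ) (h : B.rank = ρ) :
    ∃ a : Fin ρ → m, LinearIndependent K (B.submatrix a id).row := by
  obtain ⟨ι, a, ha, hs, hl⟩ := exists_linearIndependent' K B.row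
  have : Fintype ι := Fintype.ofInjective a ha
  have h1 : Fintype.card ι = ρ := by
    rw [linearIndependent_iff_card_eq_finrank_span.1 hl, Set.finrank, hs,
      ← rank_eq_finrank_span_row, h]
  exact ⟨a ∘ (Fintype.equivFinOfCardEq h1).symm, hl.comp _ (Fintype.equivFinOfCardEq h1).symm.injective⟩

theorem ex_minor (B : Matrix m n K) :
    ∃ (a : Fin B.rank → m) (b : Fin B.rank → n), (B.submatrix a b).det ≠ 0 := by
  obtain ⟨a, ha⟩ := ex_rows B _ rfl
  obtain ⟨b, hb⟩ := ex_rows (B.submatrix a id)ᵀ B.rank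
    (by rw [rank_transpose, ha.rank_matrix, Fintype.card_fin])
  refine ⟨a, b, ?_⟩
  rw [← det_transpose]
  exact ((isUnit_iff_isUnit_det _).1 (linearIndependent_rows_iff_isUnit.1 hb)).ne_zero

theorem rank_spec (φ : A →+* K) (ψ : A →+* K') (hψ : Function.Injective ψ) (W : Matrix m n A) :
    (W.map φ).rank ≤ (W.map ψ).rank := by
  obtain ⟨a, b, h⟩ := ex_minor (W.map φ)
  have h1 : ((W.map ψ).submatrix a b).det ≠ 0 := fun h2 => h (by
    have h3 : (W.submatrix a b).det = 0 := hψ (by rw [RingHom.map_det, map_zero]; exact h2)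
    have h4 := RingHom.map_det φ (W.submatrix a b)
    rw [h3, map_zero] at h4
    exact h4.symm)
  have h2 := rank_submatrix_le (W.map ψ) a b
  rwa [rank_of_det_ne_zero h1, Fintype.card_fin] at h2

omit [Fintype m] in
theorem ker_rank (B : Matrix m (n × n) K) (S : Submodule K (n → n → K))
    (h : ∀ M, M ∈ S ↔ ∀ i, ∑ p, ∑ q, B i (p, q) * M p q = 0) :
    B.rank + finrank K S = Fintype.card (n × n) := by
  have h1 := LinearMap.finrank_range_add_finrank_ker B.mulVecLin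
  have h2 : S = (LinearMap.ker B.mulVecLin).map (LinearEquiv.curry K K n n).toLinearMap := by
    rw [Submodule.map_equiv_eq_comap_symm]
    ext M
    rw [h, Submodule.mem_comap, LinearMap.mem_ker, funext_iff]
    refine forall_congr' fun i => ?_
    rw [← Fintype.sum_prod_type' (fun p q => B i (p, q) * M p q)]
    rfl
  rw [h2, LinearEquiv.finrank_map_eq, ← finrank_fintype_fun_eq_card K]
  exact h1

theorem ker_spec (φ : A →+* K) (ψ : A →+* K') (hψ : Function.Injective ψ)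
    (W : Matrix m (n × n) A) (S : Submodule K (n → n → K)) (S' : Submodule K' (n → n → K'))
    (h : ∀ M, M ∈ S ↔ ∀ i, ∑ p, ∑ q, φ (W i (p, q)) * M p q = 0)
    (h' : ∀ M, M ∈ S' ↔ ∀ i, ∑ p, ∑ q, ψ (W i (p, q)) * M p q = 0) :
    finrank K' S' ≤ finrank K S := by
  have h1 := ker_rank (W.map φ) S h
  have h2 := ker_rank (W.map ψ) S' h'
  have h3 := rank_spec φ ψ hψ W
  omega

end Rank

variable {A K K' V : Type} [CommRing A] [Field K] [Field K'] [Fintype V]

/-- matrices with `u * M j i = w * M i j`, rows in `Rw π κ' b`, killed on the left by `κ e`,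
`e < a` -/
def Gn (u w : K) (π : V → V → Prop) (κ : ℕ → V → K) (a : ℕ) (κ' : ℕ → V → K) (b : ℕ) :
    Submodule K (V → V → K) where
  carrier := {M | (∀ i j, u * M j i = w * M i j) ∧ M ∈ St (Rw π κ' b) κ a}
  add_mem' := fun {M N} hM hN => ⟨fun i j => by
    simp only [Pi.add_apply, mul_add, hM.1 i j, hN.1 i j], add_mem hM.2 hN.2⟩
  zero_mem' := ⟨fun _ _ => by simp, zero_mem _⟩
  smul_mem' := fun c M hM => ⟨fun i j => by
    simp only [Pi.smul_apply, smul_eq_mul, mul_left_comm _ c, hM.1 i j], Submodule.smul_mem _ c hM.2⟩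

open Classical in
/-- the equations of `Gn` -/
noncomputable def Wq (u w : A) (π : V → V → Prop) (κ : ℕ → V → A) (a : ℕ) (κ' : ℕ → V → A) (b : ℕ) :
    Matrix (((V × V) ⊕ (V × V)) ⊕ ((V × Fin b) ⊕ (V × Fin a))) (V × V) A
  | .inl (.inl x), y => (if y.1 = x.2 then if y.2 = x.1 then u else 0 else 0) -
      (if y.1 = x.1 then if y.2 = x.2 then w else 0 else 0)
  | .inl (.inr x), y => if y.1 = x.1 then if y.2 = x.2 then if π x.1 x.2 then 0 else 1 else 0 else 0
  | .inr (.inl x), y => if y.1 = x.1 then κ' x.2 y.2 else 0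
  | .inr (.inr x), y => if y.2 = x.1 then κ x.2 y.1 else 0

theorem mem_Gn (φ : A →+* K) (u w : A) (π : V → V → Prop) (κ : ℕ → V → A) (a : ℕ)
    (κ' : ℕ → V → A) (b : ℕ) (M : V → V → K) :
    M ∈ Gn (φ u) (φ w) π (fun e i => φ (κ e i)) a (fun e i => φ (κ' e i)) b ↔
      ∀ i, ∑ p, ∑ q, φ (Wq u w π κ a κ' b i (p, q)) * M p q = 0 := by
  classical
  simp only [Sum.forall, Prod.forall, Wq, map_sub, apply_ite φ, map_zero, map_one, sub_mul, ite_mul,
    zero_mul, one_mul, sum_sub_distrib, sum_ite_irrel, sum_ite_eq', mem_univ, if_true,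
    sum_const_zero, sub_eq_zero, ite_eq_left_iff, Fin.forall_iff]
  refine ⟨fun h => ⟨⟨h.1, fun i => (h.2.1 i).1⟩, fun i => (h.2.1 i).2, fun j e he => ?_⟩,
    fun h => ⟨h.1.1, fun i => ⟨h.1.2 i, h.2.1 i⟩, fun e he => funext fun j => ?_⟩⟩
  · simpa using congrFun (h.2.2 e he) j
  · simpa using h.2.2 j e he

theorem spec_Gn (φ : A →+* K) (ψ : A →+* K') (hψ : Function.Injective ψ) (u w : A)
    (π : V → V → Prop) (κ : ℕ → V → A) (a : ℕ) (κ' : ℕ → V → A) (b : ℕ) :
    finrank K' (Gn (ψ u) (ψ w) π (fun e i => ψ (κ e i)) a (fun e i => ψ (κ' e i)) b) ≤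
      finrank K (Gn (φ u) (φ w) π (fun e i => φ (κ e i)) a (fun e i => φ (κ' e i)) b) :=
  ker_spec φ ψ hψ (Wq u w π κ a κ' b) _ _ (mem_Gn φ u w π κ a κ' b) (mem_Gn ψ u w π κ a κ' b)

theorem Gn_St (π : V → V → Prop) (κ : ℕ → V → K) (a : ℕ) (κ' : ℕ → V → K) (b : ℕ) :
    Gn 0 0 π κ a κ' b = St (Rw π κ' b) κ a := by
  ext M
  exact ⟨fun h => h.2, fun h => ⟨fun _ _ => by simp, h⟩⟩

theorem Gn_Sk (π : V → V → Prop) (κ κ' : ℕ → V → K) (b : ℕ) :
    Gn 1 (-1) π κ 0 κ' b = Sk π κ' b := by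
  ext M
  exact ⟨fun h => ⟨fun i j => by simpa using h.1 i j, h.2.1⟩,
    fun h => ⟨fun i j => by simpa using h.1 i j, h.2, fun _ he => absurd he (Nat.not_lt_zero _)⟩⟩

theorem spec_St (φ : A →+* K) (ψ : A →+* K') (hψ : Function.Injective ψ)
    (π : V → V → Prop) (κ : ℕ → V → A) (a : ℕ) (κ' : ℕ → V → A) (b : ℕ) :
    finrank K' (St (Rw π (fun e i => ψ (κ' e i)) b) (fun e i => ψ (κ e i)) a) ≤
      finrank K (St (Rw π (fun e i => φ (κ' e i)) b) (fun e i => φ (κ e i)) a) := by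
  have h := spec_Gn φ ψ hψ 0 0 π κ a κ' b
  rwa [map_zero, map_zero, Gn_St, Gn_St] at h

theorem spec_Sk (φ : A →+* K) (ψ : A →+* K') (hψ : Function.Injective ψ)
    (π : V → V → Prop) (κ : ℕ → V → A) (b : ℕ) :
    finrank K' (Sk π (fun e i => ψ (κ e i)) b) ≤ finrank K (Sk π (fun e i => φ (κ e i)) b) := by
  have h := spec_Gn φ ψ hψ 1 (-1) π κ 0 κ b
  rwa [map_neg, map_neg, map_one, map_one, Gn_Sk, Gn_Sk] at h

end Pool.Agent.Lib.MP_9087e4_co.Sh
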